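import Pool.Agent.AlefC.Defs

/-!
# Isometries which map pluses of the prototile to lattice pluses
-/

set_option autoImplicit false

namespace AlefC

open TilDich

/-- centre of a plus -/
noncomputable def h2c (z : ℤ × ℤ) : Eu 2 := WithLp.toLp 2 (fun i => (Av z i : ℝ) + 1 / 2)

/-- the centred plus -/
def h2r (u0 u1 : ℝ) : Prop := (|u0| ≤ 3 / 2 ∧ |u1| ≤ 1 / 2) ∨ (|u0| ≤ 1 / 2 ∧ |u1| ≤ 3 / 2)

theorem h2c_apply (z : ℤ × ℤ) (i : Fin 2) : h2c z i = (Av z i : ℝ) + 1 / 2 := rfl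

theorem h2_mem (z : ℤ × ℤ) (x : Eu 2) :
    x ∈ pls z ↔ h2r (x 0 - h2c z 0) (x 1 - h2c z 1) := by
  unfold pls
  rw [mem_tile]
  have e0 : (zz (Av z) : Eu 2) 0 = (Av z 0 : ℝ) := rfl
  have e1 : (zz (Av z) : Eu 2) 1 = (Av z 1 : ℝ) := rfl
  simp only [Fin.forall_fin_two, e0, e1, h2c_apply, h2r, abs_le]
  generalize (Av z 0 : ℝ) = a
  generalize (Av z 1 : ℝ) = b
  generalize x 0 = s
  generalize x 1 = t
  simp only [plusF, Finset.mem_insert, Finset.mem_singleton]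
  constructor
  · rintro ⟨f, hf, ⟨h1, h2⟩, ⟨h3, h4⟩⟩
    rcases hf with rfl | rfl | rfl | rfl | rfl <;>
      simp only [Matrix.cons_val_zero, Matrix.cons_val_one, Int.cast_zero, Int.cast_one,
        Int.cast_neg] at h1 h2 h3 h4
    · left; constructor <;> constructor <;> linarith
    · left; constructor <;> constructor <;> linarith
    · left; constructor <;> constructor <;> linarith
    · right; constructor <;> constructor <;> linarith
    · right; constructor <;> constructor <;> linarith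
  · rintro (⟨⟨h1, h2⟩, h3, h4⟩ | ⟨⟨h1, h2⟩, h3, h4⟩)
    · rcases le_total (s - a) 0 with h | h
      · refine ⟨![-1, 0], by simp, ?_⟩
        simp only [Matrix.cons_val_zero, Matrix.cons_val_one, Int.cast_zero, Int.cast_one,
          Int.cast_neg]
        constructor <;> constructor <;> linarith
      · rcases le_total (s - a) 1 with h' | h'
        · refine ⟨![0, 0], by simp, ?_⟩
          simp only [Matrix.cons_val_zero, Matrix.cons_val_one, Int.cast_zero]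
          constructor <;> constructor <;> linarith
        · refine ⟨![1, 0], by simp, ?_⟩
          simp only [Matrix.cons_val_zero, Matrix.cons_val_one, Int.cast_zero, Int.cast_one]
          constructor <;> constructor <;> linarith
    · rcases le_total (t - b) 0 with h | h
      · refine ⟨![0, -1], by simp, ?_⟩
        simp only [Matrix.cons_val_zero, Matrix.cons_val_one, Int.cast_zero, Int.cast_one,
          Int.cast_neg]
        constructor <;> constructor <;> linarith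
      · rcases le_total (t - b) 1 with h' | h'
        · refine ⟨![0, 0], by simp, ?_⟩
          simp only [Matrix.cons_val_zero, Matrix.cons_val_one, Int.cast_zero]
          constructor <;> constructor <;> linarith
        · refine ⟨![0, 1], by simp, ?_⟩
          simp only [Matrix.cons_val_zero, Matrix.cons_val_one, Int.cast_zero, Int.cast_one]
          constructor <;> constructor <;> linarith

/-- linear part -/
noncomputable def h2K (e : Eu 2 ≃ᵢ Eu 2) : Eu 2 ≃ₗᵢ[ℝ] Eu 2 :=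
  e.toRealAffineIsometryEquiv.linearIsometryEquiv

theorem h2_add (e : Eu 2 ≃ᵢ Eu 2) (x u : Eu 2) : e (x + u) = e x + h2K e u := isom_add e x u

/-- vector with given coordinates -/
noncomputable def h2v (a b : ℝ) : Eu 2 := WithLp.toLp 2 ![a, b]

theorem h2v_zero (a b : ℝ) : h2v a b 0 = a := rfl
theorem h2v_one (a b : ℝ) : h2v a b 1 = b := rfl

theorem h2_ext {x y : Eu 2} (h0 : x 0 = y 0) (h1 : x 1 = y 1) : x = y := by
  ext i
  fin_cases i
  · exact h0
  · exact h1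

/-- the plus in terms of the centre -/
theorem h2_mem' (z : ℤ × ℤ) (u : Eu 2) : h2c z + u ∈ pls z ↔ h2r (u 0) (u 1) := by
  rw [h2_mem]
  have e0 : (h2c z + u : Eu 2) 0 - h2c z 0 = u 0 := by
    show h2c z 0 + u 0 - h2c z 0 = u 0
    ring
  have e1 : (h2c z + u : Eu 2) 1 - h2c z 1 = u 1 := by
    show h2c z 1 + u 1 - h2c z 1 = u 1
    ring
  rw [e0, e1]

theorem h2r_neg {a b : ℝ} (h : h2r a b) : h2r (-a) (-b) := by
  unfold h2r at *
  rwa [abs_neg, abs_neg]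

/-- centres are mapped to centres -/
theorem h2_center (e : Eu 2 ≃ᵢ Eu 2) (f z : ℤ × ℤ) (h : e '' pls f = pls z) :
    e (h2c f) = h2c z := by
  set d : Eu 2 := e (h2c f) - h2c z with hd
  -- pls z is symmetric about e (h2c f)
  have key : ∀ u : Eu 2, h2r (u 0) (u 1) → h2r (2 * d 0 - u 0) (2 * d 1 - u 1) := by
    intro u hu
    have h1 : h2c z + u ∈ e '' pls f := by
      rw [h, h2_mem']
      exact hu
    obtain ⟨x, hx, hxe⟩ := h1
    set w : Eu 2 := x - h2c f with hw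
    have hxw : x = h2c f + w := by rw [hw]; abel
    rw [hxw, h2_mem'] at hx
    have h2 : h2c f + (-w) ∈ pls f := by
      rw [h2_mem']
      exact h2r_neg hx
    have h3 : e (h2c f + (-w)) ∈ pls z := by
      rw [← h]
      exact ⟨_, h2, rfl⟩
    rw [h2_add, map_neg] at h3
    rw [hxw, h2_add] at hxe
    have h4 : h2K e w = h2c z + u - e (h2c f) := by rw [← hxe]; abel
    have h5 : e (h2c f) + -(h2K e w) = h2c z + (d + d - u) := by
      rw [h4, hd]; abel
    rw [h5, h2_mem'] at h3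
    have e0 : (d + d - u : Eu 2) 0 = 2 * d 0 - u 0 := by
      show d 0 + d 0 - u 0 = _
      ring
    have e1 : (d + d - u : Eu 2) 1 = 2 * d 1 - u 1 := by
      show d 1 + d 1 - u 1 = _
      ring
    rw [e0, e1] at h3
    exact h3
  have k1 := key (h2v (3 / 2) (1 / 2)) (by
    left; rw [h2v_zero, h2v_one]; constructor <;> rw [abs_le] <;> constructor <;> norm_num)
  have k2 := key (h2v (-(3 / 2)) (1 / 2)) (by
    left; rw [h2v_zero, h2v_one]; constructor <;> rw [abs_le] <;> constructor <;> norm_num)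
  have k3 := key (h2v (1 / 2) (3 / 2)) (by
    right; rw [h2v_zero, h2v_one]; constructor <;> rw [abs_le] <;> constructor <;> norm_num)
  have k4 := key (h2v (1 / 2) (-(3 / 2))) (by
    right; rw [h2v_zero, h2v_one]; constructor <;> rw [abs_le] <;> constructor <;> norm_num)
  rw [h2v_zero, h2v_one] at k1 k2 k3 k4
  have b0 : ∀ {a b : ℝ}, h2r a b → -(3 / 2) ≤ a ∧ a ≤ 3 / 2 ∧ -(3 / 2) ≤ b ∧ b ≤ 3 / 2 := by
    intro a b h
    rcases h with ⟨h1, h2⟩ | ⟨h1, h2⟩ <;> rw [abs_le] at h1 h2 <;>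
      refine ⟨?_, ?_, ?_, ?_⟩ <;> linarith
  have d0 : d 0 = 0 := by
    have a1 := (b0 k1)
    have a2 := (b0 k2)
    linarith [a1.1, a2.2.1]
  have d1 : d 1 = 0 := by
    have a1 := (b0 k3)
    have a2 := (b0 k4)
    linarith [a1.2.2.1, a2.2.2.2]
  have : d = 0 := h2_ext d0 d1
  rw [hd] at this
  exact sub_eq_zero.mp this

theorem h2_norm_sq (x : Eu 2) : ‖x‖ ^ 2 = x 0 ^ 2 + x 1 ^ 2 := by
  rw [EuclideanSpace.norm_sq_eq, Fin.sum_univ_two]
  simp [sq_abs]

/-- extreme points of the centred plus -/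
theorem h2_ext_pt {a b : ℝ} (h : h2r a b) (hn : a ^ 2 + b ^ 2 = 5 / 2) :
    (a = 3 / 2 ∨ a = -(3 / 2)) ∧ (b = 1 / 2 ∨ b = -(1 / 2)) ∨
      (a = 1 / 2 ∨ a = -(1 / 2)) ∧ (b = 3 / 2 ∨ b = -(3 / 2)) := by
  have key : ∀ a b : ℝ, |a| ≤ 3 / 2 → |b| ≤ 1 / 2 → a ^ 2 + b ^ 2 = 5 / 2 →
      (a = 3 / 2 ∨ a = -(3 / 2)) ∧ (b = 1 / 2 ∨ b = -(1 / 2)) := by
    intro a b h1 h2 hn
    have s1 : a ^ 2 ≤ (3 / 2) ^ 2 := sq_le_sq' (abs_le.mp h1).1 (abs_le.mp h1).2
    have s2 : b ^ 2 ≤ (1 / 2) ^ 2 := sq_le_sq' (abs_le.mp h2).1 (abs_le.mp h2).2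
    have t1 : a ^ 2 = (3 / 2) ^ 2 := by nlinarith
    have t2 : b ^ 2 = (1 / 2) ^ 2 := by nlinarith
    exact ⟨sq_eq_sq_iff_eq_or_eq_neg.mp t1, sq_eq_sq_iff_eq_or_eq_neg.mp t2⟩
  rcases h with ⟨h1, h2⟩ | ⟨h1, h2⟩
  · exact Or.inl (key a b h1 h2 hn)
  · obtain ⟨h3, h4⟩ := key b a h2 h1 (by linarith)
    exact Or.inr ⟨h4, h3⟩

theorem h2_cases (K : Eu 2 ≃ₗᵢ[ℝ] Eu 2)
    (hK : ∀ u : Eu 2, h2r (u 0) (u 1) → h2r (K u 0) (K u 1)) :
    ∃ s t : ℝ, (s = 1 ∨ s = -1) ∧ (t = 1 ∨ t = -1) ∧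
      ((∀ u : Eu 2, K u 0 = s * u 0 ∧ K u 1 = t * u 1) ∨
        (∀ u : Eu 2, K u 0 = t * u 1 ∧ K u 1 = s * u 0)) := by
  set a : Eu 2 := K (h2v 1 0) with ha
  set b : Eu 2 := K (h2v 0 1) with hb
  have hlin : ∀ u : Eu 2, K u = u 0 • a + u 1 • b := by
    intro u
    have h1 : u = u 0 • h2v 1 0 + u 1 • h2v 0 1 := by
      apply h2_ext
      · show u 0 = u 0 * 1 + u 1 * 0
        ring
      · show u 1 = u 0 * 0 + u 1 * 1
        ring
    conv_lhs => rw [h1]
    rw [map_add, map_smul, map_smul]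
  have hl0 : ∀ u : Eu 2, K u 0 = u 0 * a 0 + u 1 * b 0 := fun u => by
    rw [hlin u]; rfl
  have hl1 : ∀ u : Eu 2, K u 1 = u 0 * a 1 + u 1 * b 1 := fun u => by
    rw [hlin u]; rfl
  have hn : ∀ u : Eu 2, (K u 0) ^ 2 + (K u 1) ^ 2 = (u 0) ^ 2 + (u 1) ^ 2 := by
    intro u
    rw [← h2_norm_sq, ← h2_norm_sq, K.norm_map]
  have na : a 0 ^ 2 + a 1 ^ 2 = 1 := by
    have := hn (h2v 1 0)
    rw [h2v_zero, h2v_one] at this
    rw [ha]
    linarith
  have hp := hK (h2v (3 / 2) (1 / 2)) (by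
    left; rw [h2v_zero, h2v_one]; constructor <;> rw [abs_le] <;> constructor <;> norm_num)
  have hq := hK (h2v (3 / 2) (-(1 / 2))) (by
    left; rw [h2v_zero, h2v_one]; constructor <;> rw [abs_le] <;> constructor <;> norm_num)
  have np := hn (h2v (3 / 2) (1 / 2))
  have nq := hn (h2v (3 / 2) (-(1 / 2)))
  rw [h2v_zero, h2v_one] at np nq
  have ep := h2_ext_pt hp (by rw [np]; norm_num)
  have eq := h2_ext_pt hq (by rw [nq]; norm_num)
  rw [hl0, hl1, h2v_zero, h2v_one] at ep eq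
  clear hp hq np nq hn hK hlin
  clear_value a b
  generalize a 0 = a0 at *
  generalize a 1 = a1 at *
  generalize b 0 = b0 at *
  generalize b 1 = b1 at *
  have hsol : (a0 = 1 ∨ a0 = -1) ∧ a1 = 0 ∧ b0 = 0 ∧ (b1 = 1 ∨ b1 = -1) ∨
      a0 = 0 ∧ (a1 = 1 ∨ a1 = -1) ∧ (b0 = 1 ∨ b0 = -1) ∧ b1 = 0 := by
    rcases ep with ⟨h1, h2⟩ | ⟨h1, h2⟩ <;> rcases eq with ⟨h3, h4⟩ | ⟨h3, h4⟩ <;>
      rcases h1 with h1 | h1 <;> rcases h2 with h2 | h2 <;> rcases h3 with h3 | h3 <;>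
      rcases h4 with h4 | h4 <;>
      first
      | (exfalso
         have e1 : a0 = (3 / 2 * a0 + 1 / 2 * b0 + (3 / 2 * a0 + -(1 / 2) * b0)) / 3 := by ring
         have e2 : a1 = (3 / 2 * a1 + 1 / 2 * b1 + (3 / 2 * a1 + -(1 / 2) * b1)) / 3 := by ring
         rw [h1, h3] at e1
         rw [h2, h4] at e2
         rw [e1, e2] at na
         norm_num at na
         done)
      | (left
         refine ⟨?_, ?_, ?_, ?_⟩
         · first | (left; linarith) | (right; linarith)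
         · linarith
         · linarith
         · first | (left; linarith) | (right; linarith))
      | (right
         refine ⟨?_, ?_, ?_, ?_⟩
         · linarith
         · first | (left; linarith) | (right; linarith)
         · first | (left; linarith) | (right; linarith)
         · linarith)
  rcases hsol with ⟨h1, h2, h3, h4⟩ | ⟨h1, h2, h3, h4⟩
  · refine ⟨a0, b1, h1, h4, Or.inl fun u => ⟨?_, ?_⟩⟩
    · rw [hl0, h3]; ring
    · rw [hl1, h2]; ring
  · refine ⟨a1, b0, h2, h3, Or.inr fun u => ⟨?_, ?_⟩⟩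
    · rw [hl0, h1]; ring
    · rw [hl1, h4]; ring

theorem h2_image (e : Eu 2 ≃ᵢ Eu 2) (p q : ℤ × ℤ) (hc : e (h2c p) = h2c q)
    (hcr : ∀ u : Eu 2, h2r (h2K e u 0) (h2K e u 1) ↔ h2r (u 0) (u 1)) :
    e '' pls p = pls q := by
  ext y
  constructor
  · rintro ⟨x, hx, rfl⟩
    have hxw : x = h2c p + (x - h2c p) := by abel
    rw [hxw, h2_mem'] at hx
    rw [hxw, h2_add, hc, h2_mem', hcr]
    exact hx
  · intro hy
    have hyw : y = h2c q + (y - h2c q) := by abel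
    rw [hyw, h2_mem'] at hy
    refine ⟨h2c p + (h2K e).symm (y - h2c q), ?_, ?_⟩
    · rw [h2_mem', ← hcr, LinearIsometryEquiv.apply_symm_apply]
      exact hy
    · rw [h2_add, hc, LinearIsometryEquiv.apply_symm_apply]
      abel

theorem h2r_swap {a b : ℝ} : h2r a b ↔ h2r b a := by
  unfold h2r
  constructor
  · rintro (⟨h1, h2⟩ | ⟨h1, h2⟩)
    · exact Or.inr ⟨h2, h1⟩
    · exact Or.inl ⟨h2, h1⟩
  · rintro (⟨h1, h2⟩ | ⟨h1, h2⟩)
    · exact Or.inr ⟨h2, h1⟩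
    · exact Or.inl ⟨h2, h1⟩

theorem h2r_sign {a b s t : ℝ} (hs : s = 1 ∨ s = -1) (ht : t = 1 ∨ t = -1) :
    h2r (s * a) (t * b) ↔ h2r a b := by
  have e1 : |s * a| = |a| := by
    rcases hs with rfl | rfl
    · rw [one_mul]
    · rw [neg_one_mul, abs_neg]
  have e2 : |t * b| = |b| := by
    rcases ht with rfl | rfl
    · rw [one_mul]
    · rw [neg_one_mul, abs_neg]
  unfold h2r
  rw [e1, e2]

/-- isometries which map the pluses of the prototile to lattice pluses -/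
theorem isom_plus (e : Eu 2 ≃ᵢ Eu 2) (h : ∀ f ∈ F0, ∃ z : ℤ × ℤ, e '' pls f = pls z) :
    ∃ (k : Fin 4) (z : ℤ × ℤ), ∀ p : ℤ × ℤ, e '' pls p = pls (rt^[k.val] p + z) := by
  obtain ⟨z0, hz0⟩ := h (0, 0) (by simp [F0])
  obtain ⟨z1, hz1⟩ := h (1, 1) (by simp [F0])
  have c0 := h2_center e _ _ hz0
  have c1 := h2_center e _ _ hz1
  set K := h2K e with hKdef
  have hK : ∀ u : Eu 2, h2r (u 0) (u 1) → h2r (K u 0) (K u 1) := by
    intro u hu
    have h1 : h2c (0, 0) + u ∈ pls (0, 0) := (h2_mem' _ _).mpr hu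
    have h2 : e (h2c (0, 0) + u) ∈ pls z0 := by
      rw [← hz0]; exact ⟨_, h1, rfl⟩
    rw [h2_add, c0, h2_mem'] at h2
    exact h2
  obtain ⟨s, t, hs, ht, hKu⟩ := h2_cases K hK
  -- centres
  have hcen : ∀ p : ℤ × ℤ, e (h2c p) = h2c z0 + K (h2c p - h2c (0, 0)) := by
    intro p
    rw [← c0, ← h2_add]
    congr 1
    abel
  have hcr : ∀ u : Eu 2, h2r (K u 0) (K u 1) ↔ h2r (u 0) (u 1) := by
    intro u
    rcases hKu with hKu | hKu
    · rw [(hKu u).1, (hKu u).2, h2r_sign hs ht]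
    · rw [(hKu u).1, (hKu u).2, h2r_sign ht hs]
      exact h2r_swap
  have hco : ∀ (p : ℤ × ℤ), (h2c p - h2c (0, 0) : Eu 2) 0 = ((2 * p.1 - p.2 : ℤ) : ℝ) ∧
      (h2c p - h2c (0, 0) : Eu 2) 1 = ((p.1 + 2 * p.2 : ℤ) : ℝ) := by
    intro p
    constructor
    · show h2c p 0 - h2c (0, 0) 0 = _
      rw [h2c_apply, h2c_apply]
      simp [Av]
    · show h2c p 1 - h2c (0, 0) 1 = _
      rw [h2c_apply, h2c_apply]
      simp [Av]
  have hz : ∀ z : ℤ × ℤ, (h2c z : Eu 2) 0 = ((2 * z.1 - z.2 : ℤ) : ℝ) + 1 / 2 ∧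
      (h2c z : Eu 2) 1 = ((z.1 + 2 * z.2 : ℤ) : ℝ) + 1 / 2 := by
    intro z
    constructor
    · rw [h2c_apply]; simp [Av]
    · rw [h2c_apply]; simp [Av]
  have E := hcen (1, 1)
  rw [c1] at E
  have E0 : (h2c z1 : Eu 2) 0 = h2c z0 0 + K (h2c (1, 1) - h2c (0, 0)) 0 := by
    rw [E]; rfl
  have E1 : (h2c z1 : Eu 2) 1 = h2c z0 1 + K (h2c (1, 1) - h2c (0, 0)) 1 := by
    rw [E]; rfl
  have fin : ∀ (k : Fin 4), (∀ p : ℤ × ℤ,
      K (h2c p - h2c (0, 0)) 0 = ((2 * (rt^[k.val] p).1 - (rt^[k.val] p).2 : ℤ) : ℝ) ∧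
      K (h2c p - h2c (0, 0)) 1 = (((rt^[k.val] p).1 + 2 * (rt^[k.val] p).2 : ℤ) : ℝ)) →
      ∃ (k : Fin 4) (z : ℤ × ℤ), ∀ p : ℤ × ℤ, e '' pls p = pls (rt^[k.val] p + z) := by
    intro k hk
    refine ⟨k, z0, fun p => h2_image e p _ ?_ hcr⟩
    rw [hcen p]
    apply h2_ext
    · show h2c z0 0 + K (h2c p - h2c (0, 0)) 0 = _
      rw [(hk p).1, (hz _).1, (hz _).1, Prod.fst_add, Prod.snd_add]
      push_cast
      ring
    · show h2c z0 1 + K (h2c p - h2c (0, 0)) 1 = _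
      rw [(hk p).2, (hz _).2, (hz _).2, Prod.fst_add, Prod.snd_add]
      push_cast
      ring
  rw [(hz _).1, (hz _).1] at E0
  rw [(hz _).2, (hz _).2] at E1
  rcases hKu with hKu | hKu
  · rw [(hKu _).1, (hco _).1] at E0
    rw [(hKu _).2, (hco _).2] at E1
    rcases hs with rfl | rfl <;> rcases ht with rfl | rfl
    · refine fin 0 fun p => ?_
      rw [(hKu _).1, (hKu _).2, (hco _).1, (hco _).2]
      simp
    · exfalso
      have E0' : (2 * z1.1 - z1.2 : ℤ) = (2 * z0.1 - z0.2) + (2 * 1 - 1) := by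
        have : ((2 * z1.1 - z1.2 : ℤ) : ℝ) = (((2 * z0.1 - z0.2) + (2 * 1 - 1) : ℤ) : ℝ) := by
          push_cast at E0 ⊢; linarith
        exact_mod_cast this
      have E1' : (z1.1 + 2 * z1.2 : ℤ) = (z0.1 + 2 * z0.2) - (1 + 2 * 1) := by
        have : ((z1.1 + 2 * z1.2 : ℤ) : ℝ) = (((z0.1 + 2 * z0.2) - (1 + 2 * 1) : ℤ) : ℝ) := by
          push_cast at E1 ⊢; linarith
        exact_mod_cast this
      omega
    · exfalso
      have E0' : (2 * z1.1 - z1.2 : ℤ) = (2 * z0.1 - z0.2) - (2 * 1 - 1) := by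
        have : ((2 * z1.1 - z1.2 : ℤ) : ℝ) = (((2 * z0.1 - z0.2) - (2 * 1 - 1) : ℤ) : ℝ) := by
          push_cast at E0 ⊢; linarith
        exact_mod_cast this
      have E1' : (z1.1 + 2 * z1.2 : ℤ) = (z0.1 + 2 * z0.2) + (1 + 2 * 1) := by
        have : ((z1.1 + 2 * z1.2 : ℤ) : ℝ) = (((z0.1 + 2 * z0.2) + (1 + 2 * 1) : ℤ) : ℝ) := by
          push_cast at E1 ⊢; linarith
        exact_mod_cast this
      omega
    · refine fin 2 fun p => ?_
      rw [(hKu _).1, (hKu _).2, (hco _).1, (hco _).2]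
      have : rt^[(2 : Fin 4).val] p = (-p.1, -p.2) := by
        show rt (rt p) = _
        simp [rt]
      rw [this]
      constructor <;> push_cast <;> ring
  · rw [(hKu _).1, (hco _).2] at E0
    rw [(hKu _).2, (hco _).1] at E1
    rcases hs with rfl | rfl <;> rcases ht with rfl | rfl
    · exfalso
      have E0' : (2 * z1.1 - z1.2 : ℤ) = (2 * z0.1 - z0.2) + (1 + 2 * 1) := by
        have : ((2 * z1.1 - z1.2 : ℤ) : ℝ) = (((2 * z0.1 - z0.2) + (1 + 2 * 1) : ℤ) : ℝ) := by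
          push_cast at E0 ⊢; linarith
        exact_mod_cast this
      have E1' : (z1.1 + 2 * z1.2 : ℤ) = (z0.1 + 2 * z0.2) + (2 * 1 - 1) := by
        have : ((z1.1 + 2 * z1.2 : ℤ) : ℝ) = (((z0.1 + 2 * z0.2) + (2 * 1 - 1) : ℤ) : ℝ) := by
          push_cast at E1 ⊢; linarith
        exact_mod_cast this
      omega
    · refine fin 1 fun p => ?_
      rw [(hKu _).1, (hKu _).2, (hco _).1, (hco _).2]
      have : rt^[(1 : Fin 4).val] p = (-p.2, p.1) := rfl
      rw [this]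
      constructor <;> push_cast <;> ring
    · refine fin 3 fun p => ?_
      rw [(hKu _).1, (hKu _).2, (hco _).1, (hco _).2]
      have : rt^[(3 : Fin 4).val] p = (p.2, -p.1) := by
        show rt (rt (rt p)) = _
        simp [rt]
      rw [this]
      constructor <;> push_cast <;> ring
    · exfalso
      have E0' : (2 * z1.1 - z1.2 : ℤ) = (2 * z0.1 - z0.2) - (1 + 2 * 1) := by
        have : ((2 * z1.1 - z1.2 : ℤ) : ℝ) = (((2 * z0.1 - z0.2) - (1 + 2 * 1) : ℤ) : ℝ) := by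
          push_cast at E0 ⊢; linarith
        exact_mod_cast this
      have E1' : (z1.1 + 2 * z1.2 : ℤ) = (z0.1 + 2 * z0.2) - (2 * 1 - 1) := by
        have : ((z1.1 + 2 * z1.2 : ℤ) : ℝ) = (((z0.1 + 2 * z0.2) - (2 * 1 - 1) : ℤ) : ℝ) := by
          push_cast at E1 ⊢; linarith
        exact_mod_cast this
      omega

end AlefC
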