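import Pool.Agent.AlefC.PlusLat
import Pool.Agent.AlefC.IsomPlus

/-!
# Monohedral tilings come from exact covers
-/

set_option autoImplicit false

namespace AlefC

open TilDich

theorem h3_av0 (p : ℤ × ℤ) : Av p 0 = 2 * p.1 - p.2 := rfl

theorem h3_av1 (p : ℤ × ℤ) : Av p 1 = p.1 + 2 * p.2 := rfl

theorem h3_av_inj {p q : ℤ × ℤ} (h : Av p = Av q) : p = q := by
  have h0 := congrFun h 0
  have h1 := congrFun h 1
  rw [h3_av0, h3_av0] at h0
  rw [h3_av1, h3_av1] at h1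
  ext <;> omega

theorem h3_plus_nonempty : plusF.Nonempty := ⟨![0, 0], by simp [plusF]⟩

theorem h3_pls_inj {p q : ℤ × ℤ} (h : pls p = pls q) : p = q :=
  h3_av_inj (zz_inj (tile_inj h3_plus_nonempty h))

theorem h3_mem_plusF (n : Fin 2 → ℤ) : n ∈ plusF ↔
    (n 0 = 0 ∧ n 1 = 0) ∨ (n 0 = 1 ∧ n 1 = 0) ∨ (n 0 = -1 ∧ n 1 = 0) ∨ (n 0 = 0 ∧ n 1 = 1) ∨
      (n 0 = 0 ∧ n 1 = -1) := by
  simp only [plusF, Finset.mem_insert, Finset.mem_singleton, funext_iff, Fin.forall_fin_two]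
  rfl

/-- the lattice of the pluses is a tiling -/
theorem h3_ho : HO plusF {x : Eu 2 | ∃ z : ℤ × ℤ, x = zz (Av z)} := by
  intro x
  have key : ∀ z : ℤ × ℤ, fl (x - zz (Av z)) ∈ plusF ↔
      (fl x 0 - (2 * z.1 - z.2) = 0 ∧ fl x 1 - (z.1 + 2 * z.2) = 0) ∨
      (fl x 0 - (2 * z.1 - z.2) = 1 ∧ fl x 1 - (z.1 + 2 * z.2) = 0) ∨
      (fl x 0 - (2 * z.1 - z.2) = -1 ∧ fl x 1 - (z.1 + 2 * z.2) = 0) ∨
      (fl x 0 - (2 * z.1 - z.2) = 0 ∧ fl x 1 - (z.1 + 2 * z.2) = 1) ∨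
      (fl x 0 - (2 * z.1 - z.2) = 0 ∧ fl x 1 - (z.1 + 2 * z.2) = -1) := by
    intro z
    rw [fl_sub_zz, h3_mem_plusF]
    rfl
  generalize hc0 : fl x 0 = c0 at key
  generalize hc1 : fl x 1 = c1 at key
  obtain ⟨z, hz⟩ : ∃ z : ℤ × ℤ, (c0 - (2 * z.1 - z.2) = 0 ∧ c1 - (z.1 + 2 * z.2) = 0) ∨
      (c0 - (2 * z.1 - z.2) = 1 ∧ c1 - (z.1 + 2 * z.2) = 0) ∨
      (c0 - (2 * z.1 - z.2) = -1 ∧ c1 - (z.1 + 2 * z.2) = 0) ∨
      (c0 - (2 * z.1 - z.2) = 0 ∧ c1 - (z.1 + 2 * z.2) = 1) ∨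
      (c0 - (2 * z.1 - z.2) = 0 ∧ c1 - (z.1 + 2 * z.2) = -1) := by
    have h5 : (c0 - 2 * c1) % 5 = 0 ∨ (c0 - 2 * c1) % 5 = 1 ∨ (c0 - 2 * c1) % 5 = 2 ∨
        (c0 - 2 * c1) % 5 = 3 ∨ (c0 - 2 * c1) % 5 = 4 := by omega
    rcases h5 with h | h | h | h | h
    · exact ⟨((2 * c0 + c1) / 5, (2 * c1 - c0) / 5), Or.inl (by constructor <;> dsimp only <;> omega)⟩
    · exact ⟨((2 * (c0 - 1) + c1) / 5, (2 * c1 - (c0 - 1)) / 5),
        Or.inr (Or.inl (by constructor <;> dsimp only <;> omega))⟩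
    · exact ⟨((2 * c0 + (c1 + 1)) / 5, (2 * (c1 + 1) - c0) / 5),
        Or.inr (Or.inr (Or.inr (Or.inr (by constructor <;> dsimp only <;> omega))))⟩
    · exact ⟨((2 * c0 + (c1 - 1)) / 5, (2 * (c1 - 1) - c0) / 5),
        Or.inr (Or.inr (Or.inr (Or.inl (by constructor <;> dsimp only <;> omega))))⟩
    · exact ⟨((2 * (c0 + 1) + c1) / 5, (2 * c1 - (c0 + 1)) / 5),
        Or.inr (Or.inr (Or.inl (by constructor <;> dsimp only <;> omega)))⟩
  refine ⟨zz (Av z), ⟨⟨z, rfl⟩, (key z).mpr hz⟩, ?_⟩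
  rintro _ ⟨⟨w, rfl⟩, hw⟩
  rw [key] at hw
  have : w = z := by
    ext <;> omega
  rw [this]

theorem h3_isTr : IsTr plusF (tile plusF '' {x : Eu 2 | ∃ z : ℤ × ℤ, x = zz (Av z)}) :=
  tr_of_ho h3_ho

theorem h3_mem (p : ℤ × ℤ) : pls p ∈ tile plusF '' {x : Eu 2 | ∃ z : ℤ × ℤ, x = zz (Av z)} :=
  ⟨zz (Av p), ⟨p, rfl⟩, rfl⟩

theorem h3_disj {p q : ℤ × ℤ} (h : p ≠ q) : Disjoint (interior (pls p)) (interior (pls q)) :=
  h3_isTr.2.2 (h3_mem p) (h3_mem q) fun h' => h (h3_pls_inj h')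

/-- the centre of a plus -/
theorem h3_int_nonempty (p : ℤ × ℤ) : (interior (pls p)).Nonempty := by
  refine ⟨cen ![0, 0] + zz (Av p), ?_⟩
  refine mem_interior_tile (f := ![0, 0]) (by simp [plusF]) fun i => ?_
  have e : (cen ![0, 0] + zz (Av p) : Eu 2) i - (zz (Av p) : Eu 2) i =
      ((![0, 0] : Fin 2 → ℤ) i : ℝ) + 1 / 2 := by
    show ((![0, 0] : Fin 2 → ℤ) i : ℝ) + 1 / 2 + (zz (Av p) : Eu 2) i - (zz (Av p) : Eu 2) i = _
    ring
  rw [e]
  constructor <;> linarith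

theorem h3_not_mem {p q : ℤ × ℤ} (h : p ≠ q) {x : Eu 2} (hx : x ∈ interior (pls p)) :
    x ∉ pls q := by
  intro hq
  have h1 := mem_frontier_of_mem _ h3_isTr.isMono (h3_mem p) (h3_mem q)
    (fun h' => h (h3_pls_inj h')) (interior_subset hx) hq
  exact h1.2 hx

/-- a lattice plus inside a tile is one of its fourteen pluses -/
theorem h3_sub_iff (q : Pl) (c : ℤ × ℤ) : pls c ⊆ TT q ↔ c - q.2 ∈ Fg q.1 := by
  constructor
  · intro h
    obtain ⟨x, hx⟩ := h3_int_nonempty c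
    have h1 := h (interior_subset hx)
    rw [TT, Set.mem_iUnion₂] at h1
    obtain ⟨f, hf, hxf⟩ := h1
    by_contra hcon
    refine h3_not_mem ?_ hx hxf
    intro h2
    apply hcon
    rw [h2]
    simpa using hf
  · intro h x hx
    rw [TT, Set.mem_iUnion₂]
    refine ⟨c - q.2, h, ?_⟩
    have : q.2 + (c - q.2) = c := by abel
    rw [this]; exact hx

/-- sums of the coordinates of the fourteen cells -/
def sg : Fin 4 → ℤ × ℤ
  | 0 => (3, 5)
  | 1 => (-5, 3)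
  | 2 => (-3, -5)
  | 3 => (5, -3)

theorem h3_sum (q : Pl) : ∑ c ∈ (Fg q.1).toFinset.image (fun f => q.2 + f), c =
    (14 * q.2.1 + (sg q.1).1, 14 * q.2.2 + (sg q.1).2) := by
  obtain ⟨k, z⟩ := q
  rw [Finset.sum_image (fun a _ b _ h => add_left_cancel h), Finset.sum_add_distrib,
    Finset.sum_const]
  have h1 : (Fg k).toFinset.card = 14 := by
    revert k; decide
  have h2 : ∑ f ∈ (Fg k).toFinset, f = sg k := by
    revert k; decide
  show (Fg k).toFinset.card • z + ∑ f ∈ (Fg k).toFinset, f = _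
  rw [h1, h2]
  ext <;> simp

theorem h3_TT_inj {q q' : Pl} (h : TT q = TT q') : q = q' := by
  have h1 : (Fg q.1).toFinset.image (fun f => q.2 + f) =
      (Fg q'.1).toFinset.image (fun f => q'.2 + f) := by
    ext c
    have key : ∀ q : Pl, c ∈ (Fg q.1).toFinset.image (fun f => q.2 + f) ↔ pls c ⊆ TT q := by
      intro q
      rw [h3_sub_iff, Finset.mem_image]
      constructor
      · rintro ⟨f, hf, rfl⟩
        rw [List.mem_toFinset] at hf
        simpa using hf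
      · intro hc
        exact ⟨c - q.2, List.mem_toFinset.mpr hc, by abel⟩
    rw [key, key, h]
  have h2 := h3_sum q
  rw [h1, h3_sum q'] at h2
  obtain ⟨k, z1, z2⟩ := q
  obtain ⟨k', w1, w2⟩ := q'
  simp only [Prod.mk.injEq] at h2 ⊢
  obtain ⟨h3, h4⟩ := h2
  fin_cases k <;> fin_cases k' <;> simp [sg] at h3 h4 ⊢ <;> omega

theorem h3_T0 : T0 = ⋃ f ∈ F0, pls f := by
  have h1 : Fg (0 : Fin 4) = F0 := by
    show F0.map (rt^[0]) = F0
    simp
  show (⋃ f ∈ Fg (0 : Fin 4), pls ((0, 0) + f)) = _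
  rw [h1]
  refine Set.iUnion₂_congr fun f _ => ?_
  have : ((0, 0) : ℤ × ℤ) + f = f := by
    ext <;> simp
  rw [this]

theorem disc_of_real {𝒯 : Set (Set (Eu 2))} (h : Mono T0 𝒯) :
    ∃ (g : Eu 2 ≃ᵢ Eu 2) (P : Set Pl), Tiling P ∧ (fun A => g '' A) '' 𝒯 = realize P := by
  obtain ⟨h1, h2, h3⟩ := h
  have hex : ∀ A : Set (Eu 2), ∃ e : Eu 2 ≃ᵢ Eu 2, A ∈ 𝒯 → A = e '' T0 := by
    intro A
    by_cases hA : A ∈ 𝒯
    · obtain ⟨e, he⟩ := h1 A hA
      exact ⟨e, fun _ => he⟩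
    · exact ⟨IsometryEquiv.refl _, fun h => absurd h hA⟩
  choose e he using hex
  have hcup : ∀ A ∈ 𝒯, A = ⋃ f ∈ F0, e A '' pls f := by
    intro A hA
    conv_lhs => rw [he A hA, h3_T0, Set.image_iUnion₂]
  -- the tiling by pluses
  set 𝒮 : Set (Set (Eu 2)) := {S | ∃ A ∈ 𝒯, ∃ f ∈ F0, S = e A '' pls f} with h𝒮
  have hS : IsMono plusF 𝒮 := by
    refine ⟨?_, ?_, ?_⟩
    · rintro _ ⟨A, hA, f, hf, rfl⟩
      refine ⟨(IsometryEquiv.addRight (zz (Av f))).trans (e A), ?_⟩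
      show e A '' ((fun x => x + zz (Av f)) '' body plusF) = _
      rw [Set.image_image]
      rfl
    · rw [Set.eq_univ_iff_forall]
      intro x
      have hx : x ∈ ⋃₀ 𝒯 := by rw [h2]; trivial
      obtain ⟨A, hA, hxA⟩ := hx
      rw [hcup A hA, Set.mem_iUnion₂] at hxA
      obtain ⟨f, hf, hxf⟩ := hxA
      exact ⟨_, ⟨A, hA, f, hf, rfl⟩, hxf⟩
    · rintro _ ⟨A, hA, f, hf, rfl⟩ _ ⟨B, hB, f', hf', rfl⟩ hne
      show Disjoint (interior (e A '' pls f)) (interior (e B '' pls f'))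
      have hsub : ∀ A ∈ 𝒯, ∀ f ∈ F0, interior (e A '' pls f) ⊆ interior A := by
        intro A hA f hf
        refine interior_mono ?_
        intro x hx
        rw [hcup A hA, Set.mem_iUnion₂]
        exact ⟨f, hf, hx⟩
      by_cases hAB : A = B
      · subst hAB
        have hff : f ≠ f' := fun h => hne (by rw [h])
        have e1 : ∀ S : Set (Eu 2), interior (e A '' S) = e A '' interior S := fun S =>
          ((e A).toHomeomorph.image_interior S).symm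
        rw [e1, e1]
        exact (Set.disjoint_image_iff (e A).injective).mpr (h3_disj hff)
      · exact (h3 hA hB hAB).mono (hsub A hA f hf) (hsub B hB f' hf')
  -- a tile
  have hne : ∃ A, A ∈ 𝒯 := by
    have hx : (0 : Eu 2) ∈ ⋃₀ 𝒯 := by rw [h2]; trivial
    obtain ⟨A, hA, _⟩ := hx
    exact ⟨A, hA⟩
  obtain ⟨A0, hA0⟩ := hne
  set g : Eu 2 ≃ᵢ Eu 2 := (e A0).symm with hg
  have hS' := hS.image g
  set 𝒮' : Set (Set (Eu 2)) := (fun A => g '' A) '' 𝒮 with h𝒮'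
  have hm0 : ∀ f ∈ F0, pls f ∈ 𝒮' := by
    intro f hf
    refine ⟨e A0 '' pls f, ⟨A0, hA0, f, hf, rfl⟩, ?_⟩
    show g '' (e A0 '' pls f) = pls f
    rw [Set.image_image]
    simp [hg]
  have hbody : pls (0, 0) = body plusF := by
    have : (zz (Av (0, 0)) : Eu 2) = 0 := by
      ext i
      fin_cases i <;> simp [zz, Av]
    rw [pls, this, tile]
    simp
  have htr : IsTr plusF 𝒮' := by
    refine ⟨?_, hS'.2.1, hS'.2.2⟩
    intro B hB
    refine square_core h3_plus_nonempty plus_square hS' ?_ B hB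
    rw [← hbody]
    exact hm0 _ (by simp [F0])
  have hlat := plus_lattice' (ho_of_tr h3_plus_nonempty htr) 0
    (by
      show tile plusF 0 ∈ 𝒮'
      have e1 : tile plusF (0 : Eu 2) = body plusF := by rw [tile]; simp
      rw [e1, ← hbody]
      exact hm0 _ (by simp [F0]))
    (by
      show tile plusF (0 + zz (Av (1, 1))) ∈ 𝒮'
      rw [zero_add]
      exact hm0 (1, 1) (by simp [F0]))
  have hmem : ∀ B, B ∈ 𝒮' ↔ ∃ z : ℤ × ℤ, B = pls z := by
    intro B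
    constructor
    · intro hB
      obtain ⟨v, hv⟩ := htr.1 B hB
      have hv' : v ∈ {v | tile plusF v ∈ 𝒮'} := by
        show tile plusF v ∈ 𝒮'
        rw [tile, ← hv]; exact hB
      rw [hlat] at hv'
      obtain ⟨z, hz⟩ := hv'
      refine ⟨z, ?_⟩
      rw [hv, hz, zero_add]
      rfl
    · rintro ⟨z, rfl⟩
      have hv' : (zz (Av z) : Eu 2) ∈ {v | tile plusF v ∈ 𝒮'} := by
        rw [hlat]
        exact ⟨z, by rw [zero_add]⟩
      exact hv'
  have hpl : ∀ A ∈ 𝒯, ∃ q : Pl, (∀ p : ℤ × ℤ, g '' (e A '' pls p) =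
      pls (rt^[q.1.val] p + q.2)) ∧ g '' A = TT q := by
    intro A hA
    obtain ⟨k, z, hkz⟩ := isom_plus ((e A).trans g) (fun f hf => by
      have : g '' (e A '' pls f) ∈ 𝒮' := ⟨_, ⟨A, hA, f, hf, rfl⟩, rfl⟩
      rw [hmem] at this
      obtain ⟨z, hz⟩ := this
      refine ⟨z, ?_⟩
      rw [← hz, Set.image_image]
      rfl)
    have hk : ∀ p : ℤ × ℤ, g '' (e A '' pls p) = pls (rt^[k.val] p + z) := by
      intro p
      rw [← hkz p, Set.image_image]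
      rfl
    refine ⟨(k, z), hk, ?_⟩
    conv_lhs => rw [hcup A hA, Set.image_iUnion₂]
    show (⋃ f ∈ F0, g '' (e A '' pls f)) = ⋃ f ∈ Fg k, pls (z + f)
    ext x
    simp only [Set.mem_iUnion, Fg, List.mem_map]
    constructor
    · rintro ⟨f, hf, hx⟩
      refine ⟨rt^[k.val] f, ⟨f, hf, rfl⟩, ?_⟩
      rw [hk f] at hx
      rw [add_comm]
      exact hx
    · rintro ⟨_, ⟨f, hf, rfl⟩, hx⟩
      refine ⟨f, hf, ?_⟩
      rw [hk f, add_comm]
      exact hx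
  refine ⟨g, {q | TT q ∈ (fun A => g '' A) '' 𝒯}, ?_, ?_⟩
  · intro c
    obtain ⟨B, hB, hBc⟩ : ∃ B ∈ 𝒮, g '' B = pls c := (hmem (pls c)).mpr ⟨c, rfl⟩
    obtain ⟨A, hA, f, hf, rfl⟩ := hB
    obtain ⟨q, hq1, hq2⟩ := hpl A hA
    have hc : c = rt^[q.1.val] f + q.2 := by
      apply h3_pls_inj
      rw [← hq1 f]
      exact hBc.symm
    refine ⟨q, ⟨?_, ?_⟩, ?_⟩
    · exact ⟨A, hA, hq2⟩
    · rw [hc]
      have : rt^[q.1.val] f + q.2 - q.2 = rt^[q.1.val] f := by abel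
      rw [this]
      exact List.mem_map.mpr ⟨f, hf, rfl⟩
    · rintro q' ⟨⟨A', hA', hq'⟩, hc'⟩
      have hq' : g '' A' = TT q' := hq'
      have hcA' := (h3_sub_iff q' c).mpr hc'
      have hcA : pls c ⊆ TT q := by
        rw [h3_sub_iff, hc]
        have : rt^[q.1.val] f + q.2 - q.2 = rt^[q.1.val] f := by abel
        rw [this]
        exact List.mem_map.mpr ⟨f, hf, rfl⟩
      have hAA : A' = A := by
        by_contra hne
        have hd := h3 hA' hA hne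
        obtain ⟨x, hx⟩ := h3_int_nonempty c
        have e1 : ∀ S : Set (Eu 2), interior (g '' S) = g '' interior S := fun S =>
          (g.toHomeomorph.image_interior S).symm
        have x1 : x ∈ interior (g '' A') := by
          rw [hq']; exact interior_mono hcA' hx
        have x2 : x ∈ interior (g '' A) := by
          rw [hq2]; exact interior_mono hcA hx
        rw [e1] at x1 x2
        exact Set.disjoint_left.mp ((Set.disjoint_image_iff g.injective).mpr hd) x1 x2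
      apply h3_TT_inj
      rw [← hq', ← hq2, hAA]
  · apply Set.Subset.antisymm
    · rintro _ ⟨A, hA, rfl⟩
      obtain ⟨q, _, hq2⟩ := hpl A hA
      refine ⟨q, ⟨A, hA, hq2⟩, ?_⟩
      exact hq2.symm
    · rintro _ ⟨q, hq, rfl⟩
      exact hq

end AlefC
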