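import Pool.Agent.AlefC.Cnt

/-!
# Infinitely many inequivalent exact covers
-/

set_option autoImplicit false

namespace AlefC

open AlefA.H0 (UW ss W W_tiling)

/-- the linear form which is constant on the rows of both layers -/
def uu (p : ℤ × ℤ) : ℤ := 2 * p.1 + p.2

/-- even layer: the covering with one wall; odd layer: its translate by `14 n` rows -/
def Fam (n : ℕ) : Set Pl :=
  {q | ((q.2.1 + q.2.2) % 2 = 0 ∧ UW q.1 (uu q.2)) ∨
    ((q.2.1 + q.2.2) % 2 = 1 ∧ UW q.1 (uu q.2 - 2 - 14 * n))}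

theorem shift_tiling (t : ℤ × ℤ) {P : Set AlefA.Pl} (hP : AlefA.Tiling P) :
    AlefA.Tiling {q : AlefA.Pl | (q.1, q.2 - t) ∈ P} := by
  intro c
  obtain ⟨q, ⟨hq, hc⟩, hu⟩ := hP (c - t)
  refine ⟨(q.1, q.2 + t), ⟨?_, ?_⟩, ?_⟩
  · show (q.1, q.2 + t - t) ∈ P
    rw [add_sub_cancel_right]
    exact hq
  · show c - (q.2 + t) ∈ AlefA.Fg q.1
    rw [add_comm, ← sub_sub]
    exact hc
  · rintro q' ⟨h1, h2⟩
    have h3 := hu (q'.1, q'.2 - t) ⟨h1, by
      show c - t - (q'.2 - t) ∈ AlefA.Fg q'.1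
      rw [sub_sub_sub_cancel_right]
      exact h2⟩
    rw [← h3]
    show q' = (q'.1, q'.2 - t + t)
    rw [sub_add_cancel]

theorem fam_tiling (n : ℕ) : Tiling (Fam n) := by
  rw [tiling_iff]
  intro r
  fin_cases r
  · have e : lay 0 (Fam n) = W := by
      ext q
      obtain ⟨g, x, y⟩ := q
      show (((x - y + 0) + (x + y + 0)) % 2 = 0 ∧ UW g (2 * (x - y + 0) + (x + y + 0))) ∨
        (((x - y + 0) + (x + y + 0)) % 2 = 1 ∧ UW g (2 * (x - y + 0) + (x + y + 0) - 2 - 14 * n)) ↔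
        UW g (3 * x - y)
      have e1 : 2 * (x - y + 0) + (x + y + 0) = 3 * x - y := by ring
      rw [e1]
      constructor
      · rintro (⟨_, h⟩ | ⟨h, _⟩)
        · exact h
        · omega
      · intro h
        exact Or.inl ⟨by omega, h⟩
    show AlefA.Tiling (lay 0 (Fam n))
    rw [e]
    exact W_tiling
  · have e : lay 1 (Fam n) = {q : AlefA.Pl | (q.1, q.2 - ((5 * n : ℤ), (n : ℤ))) ∈ W} := by
      ext q
      obtain ⟨g, x, y⟩ := q
      show (((x - y + 1) + (x + y + 0)) % 2 = 0 ∧ UW g (2 * (x - y + 1) + (x + y + 0))) ∨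
        (((x - y + 1) + (x + y + 0)) % 2 = 1 ∧ UW g (2 * (x - y + 1) + (x + y + 0) - 2 - 14 * n)) ↔
        UW g (3 * (x - 5 * n) - (y - n))
      have e1 : 2 * (x - y + 1) + (x + y + 0) - 2 - 14 * (n : ℤ) =
        3 * (x - 5 * n) - (y - n) := by ring
      rw [e1]
      constructor
      · rintro (⟨h, _⟩ | ⟨_, h⟩)
        · omega
        · exact h
      · intro h
        exact Or.inr ⟨by omega, h⟩
    show AlefA.Tiling (lay 1 (Fam n))
    rw [e]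
    exact shift_tiling _ W_tiling

theorem mem_fam (n : ℕ) (g : Fin 4) (x y : ℤ) : ((g, (x, y)) : Pl) ∈ Fam n ↔
    ((x + y) % 2 = 0 ∧ UW g (2 * x + y)) ∨ ((x + y) % 2 = 1 ∧ UW g (2 * x + y - 2 - 14 * n)) :=
  Iff.rfl

theorem uw0 (v : ℤ) : UW 0 v ↔ v = 0 := by simp [UW]

theorem uw2 (v : ℤ) : UW 2 v ↔ v = -7 := by simp [UW]

theorem uw1 (v : ℤ) : UW 1 v ↔ v ≤ -24 ∧ v % 14 = 4 := by simp [UW]

theorem uw3 (v : ℤ) : UW 3 v ↔ 17 ≤ v ∧ v % 14 = 3 := by simp [UW]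

theorem mem0 {n : ℕ} {x y : ℤ} (h : ((0, (x, y)) : Pl) ∈ Fam n) :
    ((x + y) % 2 = 0 ∧ 2 * x + y = 0) ∨ ((x + y) % 2 = 1 ∧ 2 * x + y = 2 + 14 * n) := by
  rw [mem_fam, uw0, uw0] at h
  rcases h with h | ⟨h1, h2⟩
  · exact Or.inl h
  · exact Or.inr ⟨h1, by omega⟩

theorem fam_ne (m n : ℕ) (hmn : m ≠ n) :
    ¬ ∃ (k : Fin 4) (z : ℤ × ℤ), Fam n = act k z '' Fam m := by
  rintro ⟨k, ⟨z1, z2⟩, h⟩
  have im : ∀ q ∈ Fam m, act k (z1, z2) q ∈ Fam n := by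
    intro q hq
    rw [h]
    exact ⟨q, hq, rfl⟩
  fin_cases k
  · have a' : ((0, (0 + z1, 0 + z2)) : Pl) ∈ Fam n :=
      im (0, (0, 0)) ((mem_fam _ _ _ _).2 (Or.inl ⟨by norm_num, by rw [uw0]; norm_num⟩))
    have b' : ((0, (1 + z1, 14 * m + z2)) : Pl) ∈ Fam n :=
      im (0, (1, 14 * m)) ((mem_fam _ _ _ _).2 (Or.inr ⟨by omega, by rw [uw0]; ring⟩))
    have a := mem0 a'
    have b := mem0 b'
    omega
  · have key : ∀ x y : ℤ, (x + y) % 2 = 0 → 2 * x + y = 17 →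
        ((0, (-y + z1, x + z2)) : Pl) ∈ Fam n := by
      intro x y h1 h2
      exact im (3, (x, y)) ((mem_fam _ _ _ _).2 (Or.inl ⟨h1, by
        rw [uw3, h2]; norm_num⟩))
    have a := mem0 (key 1 15 (by norm_num) (by norm_num))
    have b := mem0 (key 3 11 (by norm_num) (by norm_num))
    have c := mem0 (key 5 7 (by norm_num) (by norm_num))
    omega
  · have a' : ((0, (- -3 + z1, - -1 + z2)) : Pl) ∈ Fam n :=
      im (2, (-3, -1)) ((mem_fam _ _ _ _).2 (Or.inl ⟨by norm_num, by rw [uw2]; norm_num⟩))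
    have b' : ((0, (-0 + z1, -(-5 + 14 * m) + z2)) : Pl) ∈ Fam n :=
      im (2, (0, -5 + 14 * m)) ((mem_fam _ _ _ _).2 (Or.inr ⟨by omega, by rw [uw2]; ring⟩))
    have a := mem0 a'
    have b := mem0 b'
    omega
  · have key : ∀ x y : ℤ, (x + y) % 2 = 0 → 2 * x + y = -24 →
        ((0, (- -y + z1, -x + z2)) : Pl) ∈ Fam n := by
      intro x y h1 h2
      exact im (1, (x, y)) ((mem_fam _ _ _ _).2 (Or.inl ⟨h1, by
        rw [uw1, h2]; norm_num⟩))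
    have a := mem0 (key 0 (-24) (by norm_num) (by norm_num))
    have b := mem0 (key 2 (-28) (by norm_num) (by norm_num))
    have c := mem0 (key 4 (-32) (by norm_num) (by norm_num))
    omega

theorem infinite_family : ∃ P : ℕ → Set Pl, (∀ n, Tiling (P n)) ∧
    ∀ m n, m ≠ n → ¬ ∃ (k : Fin 4) (z : ℤ × ℤ), P n = act k z '' P m :=
  ⟨Fam, fam_tiling, fam_ne⟩

end AlefC
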