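import Pool.Agent.AlefC.Lat

/-!
# Plus pentomino tilings: two neighbours determine the lattice; symmetries of the plus
-/

set_option autoImplicit false

namespace AlefC

open TilDich

private theorem h1_zz0 (a b : ℤ) : (zz ![a, b] : Eu 2) 0 = a := by simp [zz]

private theorem h1_zz1 (a b : ℤ) : (zz ![a, b] : Eu 2) 1 = b := by simp [zz]

private theorem h1_zz_apply (n : Fin 2 → ℤ) (i : Fin 2) : (zz n : Eu 2) i = n i := rfl

private theorem h1_fl (x : Eu 2) (i : Fin 2) : fl x i = ⌊x i⌋ := rfl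

private theorem h1_body (x : Eu 2) : x ∈ body plusF ↔
    (-1 ≤ x 0 ∧ x 0 ≤ 2 ∧ 0 ≤ x 1 ∧ x 1 ≤ 1) ∨ (0 ≤ x 0 ∧ x 0 ≤ 1 ∧ -1 ≤ x 1 ∧ x 1 ≤ 2) := by
  have hc : ∀ a b : ℤ, x ∈ cub (![a, b] : Fin 2 → ℤ) ↔
      ((a : ℝ) ≤ x 0 ∧ x 0 ≤ a + 1) ∧ ((b : ℝ) ≤ x 1 ∧ x 1 ≤ b + 1) := by
    intro a b
    constructor
    · intro h
      exact ⟨h 0, h 1⟩
    · rintro ⟨h0, h1⟩ i
      fin_cases i
      · exact h0
      · exact h1
  have hm : x ∈ body plusF ↔ x ∈ cub (![0, 0] : Fin 2 → ℤ) ∨ x ∈ cub (![1, 0] : Fin 2 → ℤ) ∨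
      x ∈ cub (![-1, 0] : Fin 2 → ℤ) ∨ x ∈ cub (![0, 1] : Fin 2 → ℤ) ∨
      x ∈ cub (![0, -1] : Fin 2 → ℤ) := by
    simp only [body, plusF, Finset.mem_insert, Finset.mem_singleton, Set.mem_iUnion, exists_prop,
      or_and_right, exists_or, exists_eq_left]
  rw [hm, hc, hc, hc, hc, hc]
  push_cast
  constructor
  · rintro (⟨⟨h1, h2⟩, h3, h4⟩ | ⟨⟨h1, h2⟩, h3, h4⟩ | ⟨⟨h1, h2⟩, h3, h4⟩ | ⟨⟨h1, h2⟩, h3, h4⟩ |
      ⟨⟨h1, h2⟩, h3, h4⟩)
    · exact Or.inl ⟨by linarith, by linarith, by linarith, by linarith⟩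
    · exact Or.inl ⟨by linarith, by linarith, by linarith, by linarith⟩
    · exact Or.inl ⟨by linarith, by linarith, by linarith, by linarith⟩
    · exact Or.inr ⟨by linarith, by linarith, by linarith, by linarith⟩
    · exact Or.inr ⟨by linarith, by linarith, by linarith, by linarith⟩
  · rintro (⟨h1, h2, h3, h4⟩ | ⟨h1, h2, h3, h4⟩)
    · rcases le_total (x 0) 0 with h | h
      · exact Or.inr (Or.inr (Or.inl ⟨⟨by linarith, by linarith⟩, by linarith, by linarith⟩))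
      · rcases le_total (x 0) 1 with h' | h'
        · exact Or.inl ⟨⟨by linarith, by linarith⟩, by linarith, by linarith⟩
        · exact Or.inr (Or.inl ⟨⟨by linarith, by linarith⟩, by linarith, by linarith⟩)
    · rcases le_total (x 1) 0 with h | h
      · exact Or.inr (Or.inr (Or.inr (Or.inr ⟨⟨by linarith, by linarith⟩, by linarith,
          by linarith⟩)))
      · rcases le_total (x 1) 1 with h' | h'
        · exact Or.inl ⟨⟨by linarith, by linarith⟩, by linarith, by linarith⟩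
        · exact Or.inr (Or.inr (Or.inr (Or.inl ⟨⟨by linarith, by linarith⟩, by linarith,
            by linarith⟩)))

private theorem h1_body_abs (x : Eu 2) : x ∈ body plusF ↔
    (|x 0 - 1 / 2| ≤ 3 / 2 ∧ |x 1 - 1 / 2| ≤ 1 / 2) ∨
      (|x 1 - 1 / 2| ≤ 3 / 2 ∧ |x 0 - 1 / 2| ≤ 1 / 2) := by
  rw [h1_body]
  simp only [abs_le]
  constructor
  · rintro (⟨h1, h2, h3, h4⟩ | ⟨h1, h2, h3, h4⟩)
    · exact Or.inl ⟨⟨by linarith, by linarith⟩, by linarith, by linarith⟩
    · exact Or.inr ⟨⟨by linarith, by linarith⟩, by linarith, by linarith⟩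
  · rintro (⟨⟨h1, h2⟩, h3, h4⟩ | ⟨⟨h1, h2⟩, h3, h4⟩)
    · exact Or.inl ⟨by linarith, by linarith, by linarith, by linarith⟩
    · exact Or.inr ⟨by linarith, by linarith, by linarith, by linarith⟩

/-- the coordinates of the inverse of an axis-preserving isometry -/
private theorem h1_signed (L : Eu 2 ≃ₗᵢ[ℝ] Eu 2) (h : ∃ i, L (EuclideanSpace.single 0 1) i = 0)
    (u : Eu 2) : (|L.symm u 0| = |u 0| ∧ |L.symm u 1| = |u 1|) ∨
      (|L.symm u 0| = |u 1| ∧ |L.symm u 1| = |u 0|) := by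
  obtain ⟨p, hp⟩ : ∃ p, p = L (EuclideanSpace.single (0 : Fin 2) 1) := ⟨_, rfl⟩
  obtain ⟨q, hq⟩ : ∃ q, q = L (EuclideanSpace.single (1 : Fin 2) 1) := ⟨_, rfl⟩
  have horth : p 0 * q 0 + p 1 * q 1 = 0 := by
    rw [← inner_two, hp, hq, L.inner_map_map, EuclideanSpace.inner_single_left]
    simp
  have hqn : q 0 * q 0 + q 1 * q 1 = 1 := by
    rw [← inner_two, hq, L.inner_map_map, EuclideanSpace.inner_single_left]
    simp
  have hpn : p 0 * p 0 + p 1 * p 1 = 1 := by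
    rw [← inner_two, hp, L.inner_map_map, EuclideanSpace.inner_single_left]
    simp
  have h0 : L.symm u 0 = u 0 * p 0 + u 1 * p 1 := by
    rw [← inner_two, hp]
    have e1 : inner ℝ u (L (EuclideanSpace.single (0 : Fin 2) 1)) =
        inner ℝ (L.symm u) (EuclideanSpace.single (0 : Fin 2) (1 : ℝ)) := by
      rw [← L.inner_map_map (L.symm u), L.apply_symm_apply]
    rw [e1, EuclideanSpace.inner_single_right]
    simp
  have h1 : L.symm u 1 = u 0 * q 0 + u 1 * q 1 := by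
    rw [← inner_two, hq]
    have e1 : inner ℝ u (L (EuclideanSpace.single (1 : Fin 2) 1)) =
        inner ℝ (L.symm u) (EuclideanSpace.single (1 : Fin 2) (1 : ℝ)) := by
      rw [← L.inner_map_map (L.symm u), L.apply_symm_apply]
    rw [e1, EuclideanSpace.inner_single_right]
    simp
  have habs : ∀ s : ℝ, s * s = 1 → |s| = 1 := by
    intro s hs
    have : |s| * |s| = 1 := by rw [abs_mul_abs_self, hs]
    nlinarith [abs_nonneg s]
  obtain ⟨i, hi⟩ := h
  rw [← hp] at hi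
  rw [h0, h1]
  fin_cases i
  · have hi' : p 0 = 0 := hi
    right
    rw [hi'] at hpn horth
    have hp1 : |p 1| = 1 := habs _ (by linarith)
    have hp1' : p 1 ≠ 0 := by
      intro h
      rw [h, abs_zero] at hp1
      norm_num at hp1
    have hq1 : q 1 = 0 := by
      have : p 1 * q 1 = 0 := by linarith
      rcases mul_eq_zero.mp this with h | h
      · exact absurd h hp1'
      · exact h
    rw [hq1] at hqn
    have hq0 : |q 0| = 1 := habs _ (by linarith)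
    rw [hi', hq1]
    constructor
    · rw [mul_zero, zero_add, abs_mul, hp1, mul_one]
    · rw [mul_zero, add_zero, abs_mul, hq0, mul_one]
  · have hi' : p 1 = 0 := hi
    left
    rw [hi'] at hpn horth
    have hp0 : |p 0| = 1 := habs _ (by linarith)
    have hp0' : p 0 ≠ 0 := by
      intro h
      rw [h, abs_zero] at hp0
      norm_num at hp0
    have hq0 : q 0 = 0 := by
      have : p 0 * q 0 = 0 := by linarith
      rcases mul_eq_zero.mp this with h | h
      · exact absurd h hp0'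
      · exact h
    rw [hq0] at hqn
    have hq1 : |q 1| = 1 := habs _ (by linarith)
    rw [hi', hq0]
    constructor
    · rw [mul_zero, add_zero, abs_mul, hp0, mul_one]
    · rw [mul_zero, zero_add, abs_mul, hq1, mul_one]

theorem plus_square : SquareSymmetric plusF := by
  intro L hL
  obtain ⟨m, hm⟩ : ∃ m : Eu 2, m = WithLp.toLp 2 (fun _ => (1 / 2 : ℝ)) := ⟨_, rfl⟩
  have hmi : ∀ i, m i = 1 / 2 := fun i => by rw [hm]
  refine ⟨L m - m, ?_⟩
  ext y
  have e1 : y ∈ L '' body plusF ↔ L.symm y ∈ body plusF := by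
    constructor
    · rintro ⟨x, hx, rfl⟩
      rwa [L.symm_apply_apply]
    · intro h
      exact ⟨_, h, L.apply_symm_apply y⟩
  have e2 : y ∈ (fun x => x + (L m - m)) '' body plusF ↔ y - (L m - m) ∈ body plusF := by
    constructor
    · rintro ⟨x, hx, rfl⟩
      simpa using hx
    · intro h
      exact ⟨_, h, by simp⟩
  obtain ⟨u, hu⟩ : ∃ u, u = y - L m := ⟨_, rfl⟩
  have e3 : ∀ i, L.symm y i - 1 / 2 = L.symm u i := by
    intro i
    rw [hu, map_sub, L.symm_apply_apply]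
    have : (L.symm y - m) i = L.symm y i - m i := rfl
    rw [this, hmi]
  have e4 : ∀ i, (y - (L m - m)) i - 1 / 2 = u i := by
    intro i
    rw [hu]
    have h1 : (y - (L m - m)) i = y i - (L m i - m i) := rfl
    have h2 : (y - L m) i = y i - L m i := rfl
    rw [h1, h2, hmi]
    ring
  rw [e1, e2, h1_body_abs, h1_body_abs, e3, e3, e4, e4]
  rcases h1_signed L hL u with ⟨h1, h2⟩ | ⟨h1, h2⟩
  · rw [h1, h2]
  · rw [h1, h2]
    exact or_comm

/-! ### the quarter turn -/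

private noncomputable def h1_R : Eu 2 ≃ₗᵢ[ℝ] Eu 2 :=
  LinearEquiv.isometryOfInner
    { toFun := fun x => WithLp.toLp 2 ![-x 1, x 0]
      invFun := fun x => WithLp.toLp 2 ![x 1, -x 0]
      map_add' := by
        intro x y
        ext i
        fin_cases i
        · simp
          ring
        · simp
      map_smul' := by
        intro c x
        ext i
        fin_cases i
        · simp
        · simp
      left_inv := by
        intro x
        ext i
        fin_cases i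
        · simp
        · simp
      right_inv := by
        intro x
        ext i
        fin_cases i
        · simp
        · simp }
    (by
      intro x y
      rw [inner_two, inner_two]
      simp
      ring)

private theorem h1_R0 (x : Eu 2) : h1_R x 0 = -x 1 := rfl

private theorem h1_R1 (x : Eu 2) : h1_R x 1 = x 0 := rfl

private theorem h1_ext {x y : Eu 2} (h0 : x 0 = y 0) (h1 : x 1 = y 1) : x = y := by
  ext i
  fin_cases i
  · exact h0
  · exact h1

private theorem h1_tile (x v : Eu 2) : x ∈ tile plusF v ↔ x - v ∈ body plusF := by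
  constructor
  · rintro ⟨y, hy, rfl⟩
    simpa using hy
  · intro h
    exact ⟨_, h, by simp⟩

private theorem h1_R_tile (v : Eu 2) :
    (fun x => h1_R x) '' tile plusF v = tile plusF (h1_R v + zz ![-1, 0]) := by
  ext y
  rw [h1_tile]
  have e1 : y ∈ (fun x => h1_R x) '' tile plusF v ↔ h1_R.symm y ∈ tile plusF v := by
    constructor
    · rintro ⟨x, hx, rfl⟩
      rwa [h1_R.symm_apply_apply]
    · intro h
      exact ⟨_, h, h1_R.apply_symm_apply y⟩
  rw [e1, h1_tile]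
  obtain ⟨w, hw⟩ : ∃ w, w = h1_R.symm y := ⟨_, rfl⟩
  have hy : y = h1_R w := by rw [hw, h1_R.apply_symm_apply]
  rw [← hw, hy, h1_body, h1_body]
  have a0 : (h1_R w - (h1_R v + zz ![-1, 0])) 0 = -w 1 + v 1 + 1 := by
    have : (h1_R w - (h1_R v + zz ![-1, 0])) 0 = h1_R w 0 - (h1_R v 0 + (zz ![-1, 0] : Eu 2) 0) := rfl
    rw [this, h1_R0, h1_R0, h1_zz0]
    push_cast
    ring
  have a1 : (h1_R w - (h1_R v + zz ![-1, 0])) 1 = w 0 - v 0 := by
    have : (h1_R w - (h1_R v + zz ![-1, 0])) 1 = h1_R w 1 - (h1_R v 1 + (zz ![-1, 0] : Eu 2) 1) := rfl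
    rw [this, h1_R1, h1_R1, h1_zz1]
    push_cast
    ring
  have b0 : (w - v) 0 = w 0 - v 0 := rfl
  have b1 : (w - v) 1 = w 1 - v 1 := rfl
  rw [a0, a1, b0, b1]
  constructor
  · rintro (⟨h1, h2, h3, h4⟩ | ⟨h1, h2, h3, h4⟩)
    · exact Or.inr ⟨by linarith, by linarith, by linarith, by linarith⟩
    · exact Or.inl ⟨by linarith, by linarith, by linarith, by linarith⟩
  · rintro (⟨h1, h2, h3, h4⟩ | ⟨h1, h2, h3, h4⟩)
    · exact Or.inr ⟨by linarith, by linarith, by linarith, by linarith⟩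
    · exact Or.inl ⟨by linarith, by linarith, by linarith, by linarith⟩

private theorem h1_rot {P : Set (Eu 2)} (hP : HO plusF P) :
    HO plusF {u | ∃ v ∈ P, u = h1_R v + zz ![-1, 0]} := by
  have h1 := (tr_of_ho hP).isMono.image h1_R.toIsometryEquiv
  have h2 : IsTr plusF ((fun A => h1_R.toIsometryEquiv '' A) '' (tile plusF '' P)) := by
    refine ⟨?_, h1.2.1, h1.2.2⟩
    rintro _ ⟨_, ⟨v, _, rfl⟩, rfl⟩
    exact ⟨h1_R v + zz ![-1, 0], h1_R_tile v⟩
  have h3 := ho_of_tr plusF_nonempty h2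
  have h4 : {v | tile plusF v ∈ (fun A => h1_R.toIsometryEquiv '' A) '' (tile plusF '' P)} =
      {u | ∃ v ∈ P, u = h1_R v + zz ![-1, 0]} := by
    ext u
    constructor
    · rintro ⟨_, ⟨v, hv, rfl⟩, h⟩
      refine ⟨v, hv, ?_⟩
      have h5 : (fun x => h1_R x) '' tile plusF v = tile plusF u := h
      rw [h1_R_tile] at h5
      exact (tile_inj plusF_nonempty h5).symm
    · rintro ⟨v, hv, rfl⟩
      exact ⟨_, ⟨v, hv, rfl⟩, h1_R_tile v⟩
  rwa [h4] at h3

/-! ### the corner argument -/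

private theorem h1_corner {P : Set (Eu 2)} (hP : HO plusF P) (v : Eu 2) (h0 : v ∈ P) :
    v + zz ![2, 1] ∈ P ∨ v + zz ![1, 2] ∈ P := by
  obtain ⟨x, hx⟩ : ∃ x : Eu 2, x = v + zz ![1, 1] := ⟨_, rfl⟩
  have hx0 : x 0 = v 0 + 1 := by
    rw [hx]
    have : (v + zz ![1, 1] : Eu 2) 0 = v 0 + (zz ![1, 1] : Eu 2) 0 := rfl
    rw [this, h1_zz0]
    push_cast
    ring
  have hx1 : x 1 = v 1 + 1 := by
    rw [hx]
    have : (v + zz ![1, 1] : Eu 2) 1 = v 1 + (zz ![1, 1] : Eu 2) 1 := rfl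
    rw [this, h1_zz1]
    push_cast
    ring
  obtain ⟨w, ⟨hw, hxw⟩, -⟩ := hP x
  have hwv : w ≠ v := by
    rintro rfl
    rw [mem_plusF, h1_fl, h1_fl] at hxw
    have e0 : (x - w) 0 = 1 := by
      have : (x - w) 0 = x 0 - w 0 := rfl
      rw [this, hx0]
      ring
    have e1 : (x - w) 1 = 1 := by
      have : (x - w) 1 = x 1 - w 1 := rfl
      rw [this, hx1]
      ring
    rw [e0, e1, Int.floor_one] at hxw
    omega
  -- points to the left
  have hleft : ∀ ε : ℝ, 0 < ε → ε ≤ 1 →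
      ¬ fl (x - WithLp.toLp 2 ![ε, 0] - w) ∈ plusF := by
    intro ε hε hε1 hcon
    have hv : fl (x - WithLp.toLp 2 ![ε, 0] - v) ∈ plusF := by
      rw [mem_plusF, h1_fl, h1_fl]
      have e0 : (x - WithLp.toLp 2 ![ε, 0] - v) 0 = 1 - ε := by
        have : (x - WithLp.toLp 2 ![ε, 0] - v) 0 = x 0 - ε - v 0 := rfl
        rw [this, hx0]
        ring
      have e1 : (x - WithLp.toLp 2 ![ε, 0] - v) 1 = 1 := by
        have : (x - WithLp.toLp 2 ![ε, 0] - v) 1 = x 1 - 0 - v 1 := rfl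
        rw [this, hx1]
        ring
      have f0 : ⌊(1 - ε : ℝ)⌋ = 0 := by
        rw [Int.floor_eq_zero_iff]
        exact ⟨by linarith, by linarith⟩
      rw [e0, e1, Int.floor_one, f0]
      omega
    exact hwv ((hP _).unique ⟨hw, hcon⟩ ⟨h0, hv⟩)
  have hdown : ∀ ε : ℝ, 0 < ε → ε ≤ 1 →
      ¬ fl (x - WithLp.toLp 2 ![0, ε] - w) ∈ plusF := by
    intro ε hε hε1 hcon
    have hv : fl (x - WithLp.toLp 2 ![0, ε] - v) ∈ plusF := by
      rw [mem_plusF, h1_fl, h1_fl]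
      have e0 : (x - WithLp.toLp 2 ![0, ε] - v) 0 = 1 := by
        have : (x - WithLp.toLp 2 ![0, ε] - v) 0 = x 0 - 0 - v 0 := rfl
        rw [this, hx0]
        ring
      have e1 : (x - WithLp.toLp 2 ![0, ε] - v) 1 = 1 - ε := by
        have : (x - WithLp.toLp 2 ![0, ε] - v) 1 = x 1 - ε - v 1 := rfl
        rw [this, hx1]
        ring
      have f0 : ⌊(1 - ε : ℝ)⌋ = 0 := by
        rw [Int.floor_eq_zero_iff]
        exact ⟨by linarith, by linarith⟩
      rw [e0, e1, Int.floor_one, f0]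
      omega
    exact hwv ((hP _).unique ⟨hw, hcon⟩ ⟨h0, hv⟩)
  obtain ⟨y0, hy0⟩ : ∃ y0 : ℝ, y0 = x 0 - w 0 := ⟨_, rfl⟩
  obtain ⟨y1, hy1⟩ : ∃ y1 : ℝ, y1 = x 1 - w 1 := ⟨_, rfl⟩
  have hl0 : ∀ ε : ℝ, (x - WithLp.toLp 2 ![ε, 0] - w) 0 = y0 - ε := by
    intro ε
    have : (x - WithLp.toLp 2 ![ε, 0] - w) 0 = x 0 - ε - w 0 := rfl
    rw [this, hy0]
    ring
  have hl1 : ∀ ε : ℝ, (x - WithLp.toLp 2 ![ε, 0] - w) 1 = y1 := by
    intro ε
    have : (x - WithLp.toLp 2 ![ε, 0] - w) 1 = x 1 - 0 - w 1 := rfl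
    rw [this, hy1]
    ring
  have hd0 : ∀ ε : ℝ, (x - WithLp.toLp 2 ![0, ε] - w) 0 = y0 := by
    intro ε
    have : (x - WithLp.toLp 2 ![0, ε] - w) 0 = x 0 - 0 - w 0 := rfl
    rw [this, hy0]
    ring
  have hd1 : ∀ ε : ℝ, (x - WithLp.toLp 2 ![0, ε] - w) 1 = y1 - ε := by
    intro ε
    have : (x - WithLp.toLp 2 ![0, ε] - w) 1 = x 1 - ε - w 1 := rfl
    rw [this, hy1]
    ring
  simp only [mem_plusF, h1_fl, hl0, hl1] at hleft
  simp only [mem_plusF, h1_fl, hd0, hd1] at hdown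
  have hxw' : (⌊y0⌋ = 0 ∧ ⌊y1⌋ = 0) ∨ (⌊y0⌋ = 1 ∧ ⌊y1⌋ = 0) ∨ (⌊y0⌋ = -1 ∧ ⌊y1⌋ = 0) ∨
      (⌊y0⌋ = 0 ∧ ⌊y1⌋ = 1) ∨ (⌊y0⌋ = 0 ∧ ⌊y1⌋ = -1) := by
    rw [mem_plusF, h1_fl, h1_fl] at hxw
    rw [hy0, hy1]
    exact hxw
  have hint0 : y0 = (⌊y0⌋ : ℝ) := by
    by_contra hne
    have hfr : 0 < Int.fract y0 := by
      rcases (Int.fract_nonneg y0).lt_or_eq with h | h
      · exact h
      · exact absurd (by rw [← Int.floor_add_fract y0, ← h]; simp) hne
    have h3 := hleft (Int.fract y0) hfr (Int.fract_lt_one y0).le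
    rw [Int.self_sub_fract, Int.floor_intCast] at h3
    exact h3 hxw'
  have hint1 : y1 = (⌊y1⌋ : ℝ) := by
    by_contra hne
    have hfr : 0 < Int.fract y1 := by
      rcases (Int.fract_nonneg y1).lt_or_eq with h | h
      · exact h
      · exact absurd (by rw [← Int.floor_add_fract y1, ← h]; simp) hne
    have h3 := hdown (Int.fract y1) hfr (Int.fract_lt_one y1).le
    rw [Int.self_sub_fract, Int.floor_intCast] at h3
    exact h3 hxw'
  have h3 := hleft 1 one_pos le_rfl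
  have h4 := hdown 1 one_pos le_rfl
  rw [Int.floor_sub_one] at h3 h4
  have hcase : (⌊y0⌋ = -1 ∧ ⌊y1⌋ = 0) ∨ (⌊y0⌋ = 0 ∧ ⌊y1⌋ = -1) := by
    rcases hxw' with h | h | h | h | h
    · exact absurd (Or.inr (Or.inr (Or.inl ⟨by rw [h.1]; rfl, h.2⟩))) h3
    · exact absurd (Or.inl ⟨by rw [h.1]; rfl, h.2⟩) h3
    · exact Or.inl h
    · exact absurd (Or.inl ⟨h.1, by rw [h.2]; rfl⟩) h4
    · exact Or.inr h
  rcases hcase with ⟨ha, hb⟩ | ⟨ha, hb⟩
  · have hw' : w = v + zz ![2, 1] := by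
      apply h1_ext
      · have : (v + zz ![2, 1] : Eu 2) 0 = v 0 + (zz ![2, 1] : Eu 2) 0 := rfl
        rw [this, h1_zz0]
        rw [ha, hy0, hx0] at hint0
        push_cast at hint0 ⊢
        linarith
      · have : (v + zz ![2, 1] : Eu 2) 1 = v 1 + (zz ![2, 1] : Eu 2) 1 := rfl
        rw [this, h1_zz1]
        rw [hb, hy1, hx1] at hint1
        push_cast at hint1 ⊢
        linarith
    rw [← hw']
    exact Or.inl hw
  · have hw' : w = v + zz ![1, 2] := by
      apply h1_ext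
      · have : (v + zz ![1, 2] : Eu 2) 0 = v 0 + (zz ![1, 2] : Eu 2) 0 := rfl
        rw [this, h1_zz0]
        rw [ha, hy0, hx0] at hint0
        push_cast at hint0 ⊢
        linarith
      · have : (v + zz ![1, 2] : Eu 2) 1 = v 1 + (zz ![1, 2] : Eu 2) 1 := rfl
        rw [this, h1_zz1]
        rw [hb, hy1, hx1] at hint1
        push_cast at hint1 ⊢
        linarith
    rw [← hw']
    exact Or.inr hw

private theorem h1_mem_plus (v : Eu 2) (c0 c1 a0 a1 : ℤ)
    (h : (c0 - a0 = 0 ∧ c1 - a1 = 0) ∨ (c0 - a0 = 1 ∧ c1 - a1 = 0) ∨ (c0 - a0 = -1 ∧ c1 - a1 = 0) ∨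
      (c0 - a0 = 0 ∧ c1 - a1 = 1) ∨ (c0 - a0 = 0 ∧ c1 - a1 = -1)) :
    fl (v + zz ![c0, c1] - (v + zz ![a0, a1])) ∈ plusF := by
  rw [mem_plusF, h1_fl, h1_fl]
  have e0 : (v + zz ![c0, c1] - (v + zz ![a0, a1])) 0 = ((c0 - a0 : ℤ) : ℝ) := by
    have : (v + zz ![c0, c1] - (v + zz ![a0, a1])) 0 =
      v 0 + (zz ![c0, c1] : Eu 2) 0 - (v 0 + (zz ![a0, a1] : Eu 2) 0) := rfl
    rw [this, h1_zz0, h1_zz0]
    push_cast
    ring
  have e1 : (v + zz ![c0, c1] - (v + zz ![a0, a1])) 1 = ((c1 - a1 : ℤ) : ℝ) := by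
    have : (v + zz ![c0, c1] - (v + zz ![a0, a1])) 1 =
      v 1 + (zz ![c0, c1] : Eu 2) 1 - (v 1 + (zz ![a0, a1] : Eu 2) 1) := rfl
    rw [this, h1_zz1, h1_zz1]
    push_cast
    ring
  rw [e0, e1, Int.floor_intCast, Int.floor_intCast]
  exact h

private theorem h1_step {P : Set (Eu 2)} (hP : HO plusF P) (v : Eu 2) (h0 : v ∈ P)
    (h1 : v + zz ![-1, 2] ∈ P) : v + zz ![2, 1] ∈ P := by
  rcases h1_corner hP v h0 with h | hw
  · exact h
  · exfalso
    have hz1 := h1_mem_plus v 0 2 1 2 (by omega)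
    have hz2 := h1_mem_plus v 0 2 (-1) 2 (by omega)
    have h5 := (hP _).unique ⟨hw, hz1⟩ ⟨h1, hz2⟩
    have h6 : (zz ![1, 2] : Eu 2) 0 = (zz ![-1, 2] : Eu 2) 0 := by rw [add_left_cancel h5]
    rw [h1_zz0, h1_zz0] at h6
    push_cast at h6
    linarith

private theorem h1_stepA {P : Set (Eu 2)} (hP : HO plusF P) (v : Eu 2) (h0 : v ∈ P)
    (h1 : v + zz ![1, 3] ∈ P) : v + zz ![2, 1] ∈ P := by
  rcases h1_corner hP v h0 with h | hw
  · exact h
  · exfalso
    have hz1 := h1_mem_plus v 1 3 1 2 (by omega)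
    have hz2 := h1_mem_plus v 1 3 1 3 (by omega)
    have h5 := (hP _).unique ⟨hw, hz1⟩ ⟨h1, hz2⟩
    have h6 : (zz ![1, 2] : Eu 2) 1 = (zz ![1, 3] : Eu 2) 1 := by rw [add_left_cancel h5]
    rw [h1_zz1, h1_zz1] at h6
    push_cast at h6
    linarith

/-- rotating an implication -/
private theorem h1_gen {s0 s1 t0 t1 : ℤ}
    (hS : ∀ P : Set (Eu 2), HO plusF P → ∀ v, v ∈ P → v + zz ![s0, s1] ∈ P → v + zz ![t0, t1] ∈ P) :
    ∀ P : Set (Eu 2), HO plusF P → ∀ v, v ∈ P → v + zz ![s1, -s0] ∈ P →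
      v + zz ![t1, -t0] ∈ P := by
  intro P hP v hv hs
  have hP' := h1_rot hP
  have key : ∀ a b : ℤ, h1_R (v + zz ![b, -a]) + zz ![-1, 0] = (h1_R v + zz ![-1, 0]) + zz ![a, b] := by
    intro a b
    apply h1_ext
    · have e1 : (h1_R (v + zz ![b, -a]) + zz ![-1, 0] : Eu 2) 0 =
        -(v 1 + (zz ![b, -a] : Eu 2) 1) + (zz ![-1, 0] : Eu 2) 0 := rfl
      have e2 : ((h1_R v + zz ![-1, 0]) + zz ![a, b] : Eu 2) 0 =
        (-v 1 + (zz ![-1, 0] : Eu 2) 0) + (zz ![a, b] : Eu 2) 0 := rfl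
      rw [e1, e2, h1_zz1, h1_zz0, h1_zz0]
      push_cast
      ring
    · have e1 : (h1_R (v + zz ![b, -a]) + zz ![-1, 0] : Eu 2) 1 =
        (v 0 + (zz ![b, -a] : Eu 2) 0) + (zz ![-1, 0] : Eu 2) 1 := rfl
      have e2 : ((h1_R v + zz ![-1, 0]) + zz ![a, b] : Eu 2) 1 =
        (v 0 + (zz ![-1, 0] : Eu 2) 1) + (zz ![a, b] : Eu 2) 1 := rfl
      rw [e1, e2, h1_zz1, h1_zz0, h1_zz1]
      push_cast
      ring
  have h1 := hS _ hP' (h1_R v + zz ![-1, 0]) ⟨v, hv, rfl⟩ ⟨_, hs, (key s0 s1).symm⟩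
  obtain ⟨v', hv', h2⟩ := h1
  rw [← key] at h2
  have h3 : h1_R (v + zz ![t1, -t0]) = h1_R v' := add_right_cancel h2
  rw [h1_R.injective h3]
  exact hv'

theorem plus_lattice {P : Set (Eu 2)} (hP : HO plusF P) (v : Eu 2) (h0 : v ∈ P)
    (h1 : v + zz (Av (0, 1)) ∈ P) : P = {x | ∃ z : ℤ × ℤ, x = v + zz (Av z)} := by
  have s1 := fun P hP v h0 h1 => h1_step (P := P) hP v h0 h1
  have s2 := h1_gen s1
  have s3 := h1_gen s2
  have s4 := h1_gen s3
  have eA : ∀ z : ℤ × ℤ, Av z = ![2 * z.1 - z.2, z.1 + 2 * z.2] := fun z => rfl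
  have t1 : ∀ w, w ∈ P → w + zz (Av (0, 1)) ∈ P → w + zz (Av (1, 0)) ∈ P := by
    intro w hw h
    have := s1 P hP w hw (by simpa [eA] using h)
    simpa [eA] using this
  have t2 : ∀ w, w ∈ P → w + zz (Av (1, 0)) ∈ P → w + zz (Av (0, -1)) ∈ P := by
    intro w hw h
    have := s2 P hP w hw (by simpa [eA] using h)
    simpa [eA] using this
  have t3 : ∀ w, w ∈ P → w + zz (Av (0, -1)) ∈ P → w + zz (Av (-1, 0)) ∈ P := by
    intro w hw h
    have := s3 P hP w hw (by simpa [eA] using h)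
    simpa [eA] using this
  have t4 : ∀ w, w ∈ P → w + zz (Av (-1, 0)) ∈ P → w + zz (Av (0, 1)) ∈ P := by
    intro w hw h
    have := s4 P hP w hw (by simpa [eA] using h)
    simpa [eA] using this
  have eadd : ∀ z z' : ℤ × ℤ, v + zz (Av (z + z')) = v + zz (Av z) + zz (Av z') := by
    intro z z'
    rw [zz_Av_add, add_assoc]
  have ez : zz (Av (0, 0)) = (0 : Eu 2) := by
    apply h1_ext
    · rw [eA, h1_zz0]
      simp
    · rw [eA, h1_zz1]
      simp
  let Good : ℤ × ℤ → Prop := fun z => v + zz (Av z) ∈ P ∧ v + zz (Av z) + zz (Av (0, 1)) ∈ P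
  have back : ∀ z z' : ℤ × ℤ, z + z' = (0, 0) → v + zz (Av z) + zz (Av z') + (0 : Eu 2) = v := by
    intro z z' h
    rw [← eadd, h, ez, add_zero, add_zero]
  have hstep : ∀ z, Good z → Good (z + (1, 0)) ∧ Good (z + (-1, 0)) ∧ Good (z + (0, 1)) ∧
      Good (z + (0, -1)) := by
    rintro z ⟨g1, g2⟩
    obtain ⟨x, hx⟩ : ∃ x, x = v + zz (Av z) := ⟨_, rfl⟩
    have hxa : ∀ d : ℤ × ℤ, v + zz (Av (z + d)) = x + zz (Av d) := fun d => by rw [eadd, hx]
    have hcancel : ∀ d d' : ℤ × ℤ, d + d' = (0, 0) → x + zz (Av d) + zz (Av d') = x := by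
      intro d d' h
      rw [add_assoc, ← zz_Av_add, h, ez, add_zero]
    rw [← hx] at g1 g2
    have ga := t1 x g1 g2
    have gb := t2 x g1 ga
    have gc := t3 x g1 gb
    refine ⟨⟨?_, ?_⟩, ⟨?_, ?_⟩, ⟨?_, ?_⟩, ⟨?_, ?_⟩⟩
    · rw [hxa]
      exact ga
    · rw [hxa]
      refine t4 _ ga ?_
      rw [hcancel (1, 0) (-1, 0) rfl]
      exact g1
    · rw [hxa]
      exact gc
    · rw [hxa]
      refine t4 _ gc (t3 _ gc (t2 _ gc ?_))
      rw [hcancel (-1, 0) (1, 0) rfl]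
      exact g1
    · rw [hxa]
      exact g2
    · rw [hxa]
      refine t4 _ g2 (t3 _ g2 ?_)
      rw [hcancel (0, 1) (0, -1) rfl]
      exact g1
    · rw [hxa]
      exact gb
    · rw [hxa, hcancel (0, -1) (0, 1) rfl]
      exact g1
  have hgood0 : Good (0, 0) := by
    refine ⟨?_, ?_⟩
    · rw [ez, add_zero]
      exact h0
    · rw [ez, add_zero]
      exact h1
  have hcol : ∀ j : ℤ, Good (0, j) := by
    intro j
    induction j using Int.induction_on with
    | zero => exact hgood0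
    | succ i ih =>
      have := (hstep _ ih).2.2.1
      simpa using this
    | pred i ih =>
      have := (hstep _ ih).2.2.2
      have e : ((0, -(i : ℤ)) : ℤ × ℤ) + (0, -1) = (0, -(i : ℤ) - 1) := by
        ext
        · simp
        · simp
          ring
      rwa [e] at this
  have hall : ∀ i j : ℤ, Good (i, j) := by
    intro i j
    induction i using Int.induction_on with
    | zero => exact hcol j
    | succ i ih =>
      have := (hstep _ ih).1
      have e : (((i : ℤ), j) : ℤ × ℤ) + (1, 0) = ((i : ℤ) + 1, j) := by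
        ext
        · simp
        · simp
      rwa [e] at this
    | pred i ih =>
      have := (hstep _ ih).2.1
      have e : ((-(i : ℤ), j) : ℤ × ℤ) + (-1, 0) = (-(i : ℤ) - 1, j) := by
        ext
        · simp
          ring
        · simp
      rwa [e] at this
  ext w
  constructor
  · intro hw
    obtain ⟨_, ⟨⟨z, rfl⟩, hz⟩, -⟩ := lattice_ho (w - v)
    refine ⟨z, ?_⟩
    have h2 : fl (w - (v + zz (Av z))) ∈ plusF := by
      rw [← sub_sub]
      exact hz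
    have h3 : fl (w - w) ∈ plusF := by
      rw [sub_self, mem_plusF, h1_fl, h1_fl]
      left
      have e : ∀ i, ((0 : Eu 2) i) = 0 := fun i => rfl
      rw [e, e, Int.floor_zero]
      exact ⟨rfl, rfl⟩
    exact (hP w).unique ⟨hw, h3⟩ ⟨(hall z.1 z.2).1, h2⟩
  · rintro ⟨z, rfl⟩
    exact (hall z.1 z.2).1

theorem plus_lattice' {P : Set (Eu 2)} (hP : HO plusF P) (v : Eu 2) (h0 : v ∈ P)
    (h1 : v + zz (Av (1, 1)) ∈ P) : P = {x | ∃ z : ℤ × ℤ, x = v + zz (Av z)} := by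
  have s1 := fun P hP v h0 h1 => h1_step (P := P) hP v h0 h1
  have s2 := h1_gen s1
  have eA : ∀ z : ℤ × ℤ, Av z = ![2 * z.1 - z.2, z.1 + 2 * z.2] := fun z => rfl
  have ga : v + zz (Av (1, 0)) ∈ P := by
    have := h1_stepA hP v h0 (by simpa [eA] using h1)
    simpa [eA] using this
  have gb : v + zz (Av (0, -1)) ∈ P := by
    have := s2 P hP v h0 (by simpa [eA] using ga)
    simpa [eA] using this
  have ez : zz (Av (0, 0)) = (0 : Eu 2) := by
    apply h1_ext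
    · rw [eA, h1_zz0]
      simp
    · rw [eA, h1_zz1]
      simp
  have hc : v + zz (Av (0, -1)) + zz (Av (0, 1)) = v := by
    rw [add_assoc, ← zz_Av_add, show (((0, -1) : ℤ × ℤ) + (0, 1)) = (0, 0) from rfl, ez, add_zero]
  have h2 := plus_lattice hP (v + zz (Av (0, -1))) gb (by rw [hc]; exact h0)
  rw [h2]
  ext x
  constructor
  · rintro ⟨z, rfl⟩
    refine ⟨(0, -1) + z, ?_⟩
    rw [zz_Av_add, add_assoc]
  · rintro ⟨z, rfl⟩
    refine ⟨(0, 1) + z, ?_⟩
    rw [zz_Av_add, ← add_assoc, hc]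

end AlefC
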