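import Pool.Agent.AlefC.Lat

/-!
# Exact covers give monohedral tilings
-/

set_option autoImplicit false

namespace AlefC

open TilDich

theorem pls_regular (c : ℤ × ℤ) : pls c ⊆ closure (interior (pls c)) := by
  have e : pls c = (IsometryEquiv.addRight (zz (Av c))) '' body plusF := rfl
  have a1 : interior ((IsometryEquiv.addRight (zz (Av c))) '' body plusF) =
      (IsometryEquiv.addRight (zz (Av c))) '' interior (body plusF) :=
    ((IsometryEquiv.addRight (zz (Av c))).toHomeomorph.image_interior _).symm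
  have a2 : closure ((IsometryEquiv.addRight (zz (Av c))) '' interior (body plusF)) =
      (IsometryEquiv.addRight (zz (Av c))) '' closure (interior (body plusF)) :=
    ((IsometryEquiv.addRight (zz (Av c))).toHomeomorph.image_closure _).symm
  rw [e, a1, a2]
  exact Set.image_mono body_regular

/-- the quarter turn about the centre of the plus at the origin -/
noncomputable def real_rho : Eu 2 ≃ᵢ Eu 2 where
  toFun x := WithLp.toLp 2 ![1 - x 1, x 0]
  invFun x := WithLp.toLp 2 ![x 1, 1 - x 0]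
  left_inv x := by
    ext i
    fin_cases i <;> simp
  right_inv x := by
    ext i
    fin_cases i <;> simp
  isometry_toFun := by
    refine Isometry.of_dist_eq fun x y => ?_
    simp only [EuclideanSpace.dist_eq, Fin.sum_univ_two, Real.dist_eq, sq_abs,
      Matrix.cons_val_zero, Matrix.cons_val_one, Matrix.cons_val_fin_one]
    congr 1
    ring

private theorem real_rho_pls (p : ℤ × ℤ) : real_rho '' pls p = pls (rt p) := by
  ext y
  constructor
  · rintro ⟨x, hx, rfl⟩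
    obtain ⟨f, hf, h⟩ := mem_tile.1 hx
    refine mem_tile.2 ⟨![-f 1, f 0], ?_, ?_⟩
    · rw [mem_plusF] at hf ⊢
      show (-f 1 = 0 ∧ f 0 = 0) ∨ (-f 1 = 1 ∧ f 0 = 0) ∨ (-f 1 = -1 ∧ f 0 = 0) ∨
        (-f 1 = 0 ∧ f 0 = 1) ∨ (-f 1 = 0 ∧ f 0 = -1)
      omega
    · have h0 := h 0
      have h1 := h 1
      have b0 : (zz (Av p) : Eu 2) 0 = 2 * p.1 - p.2 := by simp [zz, Av]
      have b1 : (zz (Av p) : Eu 2) 1 = p.1 + 2 * p.2 := by simp [zz, Av]
      have c0 : (zz (Av (rt p)) : Eu 2) 0 = 2 * (-p.2) - p.1 := by simp [zz, Av, rt]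
      have c1 : (zz (Av (rt p)) : Eu 2) 1 = (-p.2) + 2 * p.1 := by simp [zz, Av, rt]
      rw [b0] at h0
      rw [b1] at h1
      intro i
      fin_cases i
      · show ((-f 1 : ℤ) : ℝ) ≤ (1 - x 1) - (zz (Av (rt p)) : Eu 2) 0 ∧
          (1 - x 1) - (zz (Av (rt p)) : Eu 2) 0 ≤ ((-f 1 : ℤ) : ℝ) + 1
        rw [c0]
        push_cast
        constructor <;> linarith [h1.1, h1.2]
      · show ((f 0 : ℤ) : ℝ) ≤ x 0 - (zz (Av (rt p)) : Eu 2) 1 ∧
          x 0 - (zz (Av (rt p)) : Eu 2) 1 ≤ ((f 0 : ℤ) : ℝ) + 1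
        rw [c1]
        constructor <;> linarith [h0.1, h0.2]
  · intro hy
    obtain ⟨f, hf, h⟩ := mem_tile.1 hy
    refine ⟨real_rho.symm y, ?_, real_rho.apply_symm_apply y⟩
    refine mem_tile.2 ⟨![f 1, -f 0], ?_, ?_⟩
    · rw [mem_plusF] at hf ⊢
      show (f 1 = 0 ∧ -f 0 = 0) ∨ (f 1 = 1 ∧ -f 0 = 0) ∨ (f 1 = -1 ∧ -f 0 = 0) ∨
        (f 1 = 0 ∧ -f 0 = 1) ∨ (f 1 = 0 ∧ -f 0 = -1)
      omega
    · have h0 := h 0
      have h1 := h 1
      have b0 : (zz (Av p) : Eu 2) 0 = 2 * p.1 - p.2 := by simp [zz, Av]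
      have b1 : (zz (Av p) : Eu 2) 1 = p.1 + 2 * p.2 := by simp [zz, Av]
      have c0 : (zz (Av (rt p)) : Eu 2) 0 = 2 * (-p.2) - p.1 := by simp [zz, Av, rt]
      have c1 : (zz (Av (rt p)) : Eu 2) 1 = (-p.2) + 2 * p.1 := by simp [zz, Av, rt]
      rw [c0] at h0
      rw [c1] at h1
      intro i
      fin_cases i
      · show ((f 1 : ℤ) : ℝ) ≤ y 1 - (zz (Av p) : Eu 2) 0 ∧
          y 1 - (zz (Av p) : Eu 2) 0 ≤ ((f 1 : ℤ) : ℝ) + 1
        rw [b0]
        constructor <;> linarith [h1.1, h1.2]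
      · show ((-f 0 : ℤ) : ℝ) ≤ (1 - y 0) - (zz (Av p) : Eu 2) 1 ∧
          (1 - y 0) - (zz (Av p) : Eu 2) 1 ≤ ((-f 0 : ℤ) : ℝ) + 1
        rw [b1]
        push_cast
        constructor <;> linarith [h0.1, h0.2]

/-- the rotations and translations which act on the lattice pluses -/
theorem exists_isom_pls (k : ℕ) (z : ℤ × ℤ) :
    ∃ e : Eu 2 ≃ᵢ Eu 2, ∀ p : ℤ × ℤ, e '' pls p = pls (rt^[k] p + z) := by
  have h1 : ∀ k : ℕ, ∃ e : Eu 2 ≃ᵢ Eu 2, ∀ p : ℤ × ℤ, e '' pls p = pls (rt^[k] p) := by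
    intro k
    induction k with
    | zero =>
      refine ⟨IsometryEquiv.refl _, fun p => ?_⟩
      show (fun x => x) '' pls p = pls p
      rw [Set.image_id']
    | succ k ih =>
      obtain ⟨e, he⟩ := ih
      refine ⟨e.trans real_rho, fun p => ?_⟩
      rw [Function.iterate_succ_apply', ← real_rho_pls, ← he, Set.image_image]
      rfl
  obtain ⟨e, he⟩ := h1 k
  refine ⟨e.trans (IsometryEquiv.addRight (zz (Av z))), fun p => ?_⟩
  have e1 : (e.trans (IsometryEquiv.addRight (zz (Av z)))) '' pls p =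
      (fun x => x + zz (Av z)) '' (e '' pls p) := by
    rw [Set.image_image]
    rfl
  rw [e1, he]
  show (fun x => x + zz (Av z)) '' ((fun x => x + zz (Av (rt^[k] p))) '' body plusF) =
    (fun x => x + zz (Av (rt^[k] p + z))) '' body plusF
  rw [Set.image_image, zz_Av_add]
  refine Set.image_congr fun x _ => ?_
  rw [add_assoc]

/-- every placement is an isometric image of the prototile -/
theorem exists_isom_TT (q : Pl) : ∃ e : Eu 2 ≃ᵢ Eu 2, TT q = e '' T0 := by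
  obtain ⟨e, he⟩ := exists_isom_pls q.1.val q.2
  refine ⟨e, ?_⟩
  ext x
  simp only [T0, TT, Set.image_iUnion, Set.mem_iUnion, he, Fg, List.mem_map]
  constructor
  · rintro ⟨_, ⟨f, hf, rfl⟩, hx⟩
    refine ⟨f, ⟨f, hf, rfl⟩, ?_⟩
    have e1 : ((0, 0) : ℤ × ℤ) + f = f := zero_add f
    show x ∈ pls (rt^[q.1.val] ((0, 0) + f) + q.2)
    rw [e1, add_comm]
    exact hx
  · rintro ⟨_, ⟨f, hf, rfl⟩, hx⟩
    refine ⟨rt^[q.1.val] f, ⟨f, hf, rfl⟩, ?_⟩
    have e1 : ((0, 0) : ℤ × ℤ) + f = f := zero_add f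
    have hx' : x ∈ pls (rt^[q.1.val] ((0, 0) + f) + q.2) := hx
    rw [e1, add_comm] at hx'
    exact hx'

theorem real_of_disc {P : Set Pl} (h : Tiling P) : Mono T0 (realize P) := by
  refine ⟨?_, ?_, ?_⟩
  · rintro _ ⟨q, _, rfl⟩
    exact exists_isom_TT q
  · rw [Set.eq_univ_iff_forall]
    intro x
    have h1 : x ∈ ⋃₀ (Set.range pls) := by
      rw [lattice_mono.2.1]
      trivial
    obtain ⟨_, ⟨c, rfl⟩, hc⟩ := h1
    obtain ⟨q, ⟨hq, hcq⟩, _⟩ := h c
    exact ⟨TT q, ⟨q, hq, rfl⟩, (mem_cells_iff q c).1 hcq hc⟩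
  · rintro _ ⟨q, hq, rfl⟩ _ ⟨q', hq', rfl⟩ hne
    rw [Set.disjoint_left]
    intro x hx hx'
    have h1 := interior_subset hx
    rw [TT_eq] at h1
    simp only [Set.mem_iUnion] at h1
    obtain ⟨c, hc, hxc⟩ := h1
    have h2 := pls_regular c hxc
    rw [mem_closure_iff] at h2
    obtain ⟨y, hy', hy⟩ := h2 _ isOpen_interior hx'
    have h3 := interior_subset hy'
    rw [TT_eq] at h3
    simp only [Set.mem_iUnion] at h3
    obtain ⟨c', hc', hyc'⟩ := h3
    have hcc : c ≠ c' := by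
      rintro rfl
      apply hne
      obtain ⟨r, _, hu⟩ := h c
      rw [hu q ⟨hq, hc⟩, hu q' ⟨hq', hc'⟩]
    exact Set.disjoint_left.1 (int_disj hcc) hy hyc'

end AlefC
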