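import Pool.Agent.AlefC.Cnt
import Pool.Agent.AlefC.Family
import Pool.Agent.AlefC.DiscReal
import Pool.Agent.AlefC.Iso
import Pool.Agent.AlefC.RealDisc

/-!
# A connected union of squares with exactly countably many tilings: assembly
-/

set_option autoImplicit false

namespace AlefC

open TilDich

/-- two families of sets in the plane are congruent -/
def Congr (𝒯 𝒯' : Set (Set (Eu 2))) : Prop := ∃ g : Eu 2 ≃ᵢ Eu 2, 𝒯' = (fun A => g '' A) '' 𝒯

theorem image_trans (g h : Eu 2 ≃ᵢ Eu 2) (𝒯 : Set (Set (Eu 2))) :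
    (fun A => h '' A) '' ((fun A => g '' A) '' 𝒯) = (fun A => (g.trans h) '' A) '' 𝒯 := by
  rw [Set.image_image]
  refine Set.image_congr fun A _ => ?_
  rw [Set.image_image]
  rfl

theorem image_refl (𝒯 : Set (Set (Eu 2))) :
    (fun A => (IsometryEquiv.refl (Eu 2)) '' A) '' 𝒯 = 𝒯 := by
  have : (fun A : Set (Eu 2) => (IsometryEquiv.refl (Eu 2)) '' A) = id := by
    funext A
    ext x
    constructor
    · rintro ⟨y, hy, rfl⟩
      exact hy
    · intro hx
      exact ⟨x, hx, rfl⟩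
  rw [this, Set.image_id]

theorem congr_refl (𝒯 : Set (Set (Eu 2))) : Congr 𝒯 𝒯 := ⟨IsometryEquiv.refl _, (image_refl 𝒯).symm⟩

theorem congr_symm {𝒯 𝒯' : Set (Set (Eu 2))} (h : Congr 𝒯 𝒯') : Congr 𝒯' 𝒯 := by
  obtain ⟨g, rfl⟩ := h
  refine ⟨g.symm, ?_⟩
  have h1 : g.trans g.symm = IsometryEquiv.refl (Eu 2) := by
    ext1 x
    simp [IsometryEquiv.refl]
  rw [image_trans, h1, image_refl]

theorem congr_trans {𝒯 𝒯' 𝒯'' : Set (Set (Eu 2))} (h : Congr 𝒯 𝒯') (h' : Congr 𝒯' 𝒯'') :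
    Congr 𝒯 𝒯'' := by
  obtain ⟨g, rfl⟩ := h
  obtain ⟨g', rfl⟩ := h'
  exact ⟨g.trans g', image_trans g g' 𝒯⟩

/-- the exact covers up to congruence of their realizations -/
def cs : Setoid {P : Set Pl // Tiling P} where
  r P P' := Congr (realize P.1) (realize P'.1)
  iseqv := ⟨fun _ => congr_refl _, fun h => congr_symm h, fun h h' => congr_trans h h'⟩

theorem main : ∃ f : ℕ → Set (Set (Eu 2)), (∀ n, Mono T0 (f n)) ∧
    (∀ m n : ℕ, m ≠ n → ¬ ∃ g : Eu 2 ≃ᵢ Eu 2, f n = (fun A => g '' A) '' f m) ∧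
    (∀ 𝒯, Mono T0 𝒯 → ∃ (n : ℕ) (g : Eu 2 ≃ᵢ Eu 2), 𝒯 = (fun A => g '' A) '' f n) := by
  classical
  have : Countable {P : Set Pl // Tiling P} := countable_tilings.to_subtype
  have : Countable (Quotient cs) := inferInstance
  obtain ⟨P, hP, hne⟩ := infinite_family
  have : Infinite (Quotient cs) := by
    refine Infinite.of_injective (fun n : ℕ => (Quotient.mk cs ⟨P n, hP n⟩)) ?_
    intro m n hmn
    by_contra h
    have h1 : Congr (realize (P m)) (realize (P n)) := Quotient.exact hmn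
    obtain ⟨g, hg⟩ := h1
    exact hne m n h (disc_of_isom (hP m) (hP n) g hg)
  obtain ⟨hd⟩ := nonempty_denumerable (Quotient cs)
  let e : ℕ ≃ Quotient cs := (Denumerable.eqv (Quotient cs)).symm
  refine ⟨fun n => realize (e n).out.1, fun n => real_of_disc (e n).out.2, ?_, ?_⟩
  · rintro m n hmn ⟨g, hg⟩
    apply hmn
    apply e.injective
    rw [← Quotient.out_eq (e m), ← Quotient.out_eq (e n)]
    exact Quotient.sound (s := cs) ⟨g, hg⟩
  · intro 𝒯 h
    obtain ⟨g, P, hP, hg⟩ := disc_of_real h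
    let q : Quotient cs := Quotient.mk cs ⟨P, hP⟩
    refine ⟨e.symm q, ?_⟩
    have h1 : cs.r (e (e.symm q)).out ⟨P, hP⟩ := by
      apply Quotient.exact (s := cs)
      rw [Quotient.out_eq, Equiv.apply_symm_apply]
    have h2 : Congr 𝒯 (realize P) := ⟨g, hg.symm⟩
    obtain ⟨g', hg'⟩ := congr_trans h1 (congr_symm h2)
    exact ⟨g', hg'⟩

end AlefC
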