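import Pool.Agent.AlefC.Defs

/-!
# A connected union of squares with exactly countably many tilings: the 70 cells
-/

set_option autoImplicit false

namespace AlefC

open TilDich

/-- the five cells of the plus pentomino, as pairs -/
def pl : List (ℤ × ℤ) := [(0, 0), (1, 0), (-1, 0), (0, 1), (0, -1)]

theorem cel_mem_plusF (q : Fin 2 → ℤ) : q ∈ plusF ↔ ∃ c ∈ pl, q = ![c.1, c.2] := by
  simp [plusF, pl]

theorem mem_T0 (S : Finset (ℤ × ℤ))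
    (h1 : ∀ p ∈ F0, ∀ q ∈ pl, (2 * p.1 - p.2 + q.1, p.1 + 2 * p.2 + q.2) ∈ S)
    (h2 : ∀ c ∈ S, ∃ p ∈ F0, ∃ q ∈ pl, c = (2 * p.1 - p.2 + q.1, p.1 + 2 * p.2 + q.2))
    (x : Eu 2) :
    x ∈ T0 ↔ ∃ c ∈ S, (c.1 : ℝ) ≤ x 0 ∧ x 0 ≤ c.1 + 1 ∧ (c.2 : ℝ) ≤ x 1 ∧ x 1 ≤ c.2 + 1 := by
  have h0 : x ∈ T0 ↔ ∃ p ∈ F0, ∃ q ∈ pl,
      (((2 * p.1 - p.2 + q.1 : ℤ) : ℝ) ≤ x 0 ∧ x 0 ≤ ((2 * p.1 - p.2 + q.1 : ℤ) : ℝ) + 1 ∧
      ((p.1 + 2 * p.2 + q.2 : ℤ) : ℝ) ≤ x 1 ∧ x 1 ≤ ((p.1 + 2 * p.2 + q.2 : ℤ) : ℝ) + 1) := by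
    have hF : Fg 0 = F0 := by
      simp [Fg]
    have e1 : x ∈ T0 ↔ ∃ p ∈ F0, x ∈ pls ((0, 0) + p) := by
      simp only [T0, TT, hF, Set.mem_iUnion, exists_prop]
    rw [e1]
    refine exists_congr fun p => and_congr_right fun _ => ?_
    have e2 : x ∈ pls ((0, 0) + p) ↔ ∃ q ∈ plusF, ∀ i, (q i : ℝ) ≤ (x - zz (Av p)) i ∧
        (x - zz (Av p)) i ≤ q i + 1 := by
      have e3 : ((0, 0) : ℤ × ℤ) + p = p := by
        ext <;> simp
      rw [e3]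
      simp only [pls, tile, body, Set.mem_image, Set.mem_iUnion, exists_prop, cub, Set.mem_ofPred_eq]
      constructor
      · rintro ⟨y, ⟨q, hq, hy⟩, rfl⟩
        refine ⟨q, hq, fun i => ?_⟩
        have : (y + zz (Av p) - zz (Av p)) i = y i := by simp
        rw [this]
        exact hy i
      · rintro ⟨q, hq, hy⟩
        exact ⟨x - zz (Av p), ⟨q, hq, hy⟩, by simp⟩
    rw [e2]
    constructor
    · rintro ⟨q, hq, h⟩
      obtain ⟨c, hc, rfl⟩ := (cel_mem_plusF q).1 hq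
      refine ⟨c, hc, ?_⟩
      have a0 := h 0
      have a1 := h 1
      simp [zz, Av] at a0 a1
      push_cast
      refine ⟨by linarith [a0.1], by linarith [a0.2], by linarith [a1.1], by linarith [a1.2]⟩
    · rintro ⟨c, hc, b1, b2, b3, b4⟩
      refine ⟨![c.1, c.2], (cel_mem_plusF _).2 ⟨c, hc, rfl⟩, ?_⟩
      push_cast at b1 b2 b3 b4
      intro i
      fin_cases i
      · simp [zz, Av]
        constructor <;> linarith
      · simp [zz, Av]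
        constructor <;> linarith
  rw [h0]
  constructor
  · rintro ⟨p, hp, q, hq, h⟩
    exact ⟨_, h1 p hp q hq, h⟩
  · rintro ⟨c, hc, h⟩
    obtain ⟨p, hp, q, hq, rfl⟩ := h2 c hc
    exact ⟨p, hp, q, hq, h⟩

/-- a finite union of closed unit squares is compact and the closure of its interior -/
theorem squares_regular (S : Finset (ℤ × ℤ)) (T : Set (Eu 2))
    (hT : ∀ x : Eu 2, x ∈ T ↔
      ∃ c ∈ S, (c.1 : ℝ) ≤ x 0 ∧ x 0 ≤ c.1 + 1 ∧ (c.2 : ℝ) ≤ x 1 ∧ x 1 ≤ c.2 + 1) :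
    IsCompact T ∧ closure (interior T) = T := by
  have hb : T = body (S.image fun c => ![c.1, c.2]) := by
    ext x
    rw [hT x]
    simp only [body, cub, Set.mem_iUnion, Set.mem_ofPred_eq, exists_prop, Finset.mem_image]
    constructor
    · rintro ⟨c, hc, h1, h2, h3, h4⟩
      refine ⟨_, ⟨c, hc, rfl⟩, fun i => ?_⟩
      fin_cases i
      · exact ⟨by simpa using h1, by simpa using h2⟩
      · exact ⟨by simpa using h3, by simpa using h4⟩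
    · rintro ⟨_, ⟨c, hc, rfl⟩, h⟩
      have a0 := h 0
      have a1 := h 1
      simp at a0 a1
      exact ⟨c, hc, a0.1, a0.2, a1.1, a1.2⟩
  rw [hb]
  refine ⟨?_, ?_⟩
  · obtain ⟨C, _, hC⟩ := body_bounded (S.image fun c : ℤ × ℤ => (![c.1, c.2] : Fin 2 → ℤ))
    refine Metric.isCompact_of_isClosed_isBounded (isClosed_body _) ?_
    refine (Metric.isBounded_closedBall (x := (0 : Eu 2)) (r := C)).subset fun x hx => ?_
    rw [Metric.mem_closedBall, dist_zero_right]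
    exact hC x hx
  · refine Set.Subset.antisymm ?_ body_regular
    exact closure_minimal interior_subset (isClosed_body _)

/-- closed unit square -/
def sq (c : ℤ × ℤ) : Set (Eu 2) :=
  {x | (c.1 : ℝ) ≤ x 0 ∧ x 0 ≤ c.1 + 1 ∧ (c.2 : ℝ) ≤ x 1 ∧ x 1 ≤ c.2 + 1}

theorem sq_convex (c : ℤ × ℤ) : Convex ℝ (sq c) := by
  rintro x ⟨h1, h2, h3, h4⟩ y ⟨k1, k2, k3, k4⟩ a b ha hb hab
  have e0 : (a • x + b • y) 0 = a * x 0 + b * y 0 := rfl
  have e1 : (a • x + b • y) 1 = a * x 1 + b * y 1 := rfl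
  have hu : ∀ u : ℝ, a * u + b * u = u := fun u => by rw [← add_mul, hab, one_mul]
  refine ⟨?_, ?_, ?_, ?_⟩
  · rw [e0]
    have := hu c.1
    linarith [mul_le_mul_of_nonneg_left h1 ha, mul_le_mul_of_nonneg_left k1 hb]
  · rw [e0]
    have := hu (c.1 + 1)
    linarith [mul_le_mul_of_nonneg_left h2 ha, mul_le_mul_of_nonneg_left k2 hb]
  · rw [e1]
    have := hu c.2
    linarith [mul_le_mul_of_nonneg_left h3 ha, mul_le_mul_of_nonneg_left k3 hb]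
  · rw [e1]
    have := hu (c.2 + 1)
    linarith [mul_le_mul_of_nonneg_left h4 ha, mul_le_mul_of_nonneg_left k4 hb]

/-- two squares which meet -/
def touch (c d : ℤ × ℤ) : Prop := max c.1 d.1 ≤ min c.1 d.1 + 1 ∧ max c.2 d.2 ≤ min c.2 d.2 + 1

instance (c d : ℤ × ℤ) : Decidable (touch c d) := by
  unfold touch
  infer_instance

theorem sq_inter {c d : ℤ × ℤ} (h : touch c d) :
    WithLp.toLp 2 ![((max c.1 d.1 : ℤ) : ℝ), ((max c.2 d.2 : ℤ) : ℝ)] ∈ sq c ∩ sq d := by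
  obtain ⟨h1, h2⟩ := h
  have a1 : c.1 ≤ max c.1 d.1 ∧ d.1 ≤ max c.1 d.1 ∧ max c.1 d.1 ≤ c.1 + 1 ∧
      max c.1 d.1 ≤ d.1 + 1 := by omega
  have a2 : c.2 ≤ max c.2 d.2 ∧ d.2 ≤ max c.2 d.2 ∧ max c.2 d.2 ≤ c.2 + 1 ∧
      max c.2 d.2 ≤ d.2 + 1 := by omega
  refine ⟨⟨?_, ?_, ?_, ?_⟩, ?_, ?_, ?_, ?_⟩
  · show (c.1 : ℝ) ≤ ((max c.1 d.1 : ℤ) : ℝ)
    exact_mod_cast a1.1
  · show ((max c.1 d.1 : ℤ) : ℝ) ≤ (c.1 : ℝ) + 1
    exact_mod_cast a1.2.2.1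
  · show (c.2 : ℝ) ≤ ((max c.2 d.2 : ℤ) : ℝ)
    exact_mod_cast a2.1
  · show ((max c.2 d.2 : ℤ) : ℝ) ≤ (c.2 : ℝ) + 1
    exact_mod_cast a2.2.2.1
  · show (d.1 : ℝ) ≤ ((max c.1 d.1 : ℤ) : ℝ)
    exact_mod_cast a1.2.1
  · show ((max c.1 d.1 : ℤ) : ℝ) ≤ (d.1 : ℝ) + 1
    exact_mod_cast a1.2.2.2
  · show (d.2 : ℝ) ≤ ((max c.2 d.2 : ℤ) : ℝ)
    exact_mod_cast a2.2.1
  · show ((max c.2 d.2 : ℤ) : ℝ) ≤ (d.2 : ℝ) + 1
    exact_mod_cast a2.2.2.2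

/-- every square of the list but the last one meets a later one -/
def chain : List (ℤ × ℤ) → Prop
  | [] => True
  | c :: L => (L = [] ∨ ∃ d ∈ L, touch c d) ∧ chain L

instance chainDec : ∀ L, Decidable (chain L)
  | [] => isTrue trivial
  | c :: L => by
    have := chainDec L
    unfold chain
    infer_instance

theorem chain_conn : ∀ L : List (ℤ × ℤ), L ≠ [] → chain L → IsConnected (⋃ c ∈ L, sq c)
  | [], h, _ => absurd rfl h
  | c :: L, _, h => by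
    have hc : IsConnected (sq c) := by
      refine ⟨⟨_, (sq_inter (c := c) (d := c) ?_).1⟩, (sq_convex c).isPreconnected⟩
      unfold touch
      omega
    have e : (⋃ d ∈ c :: L, sq d) = sq c ∪ ⋃ d ∈ L, sq d := by
      ext x
      simp
    rw [e]
    rcases h.1 with rfl | ⟨d, hd, ht⟩
    · simpa using hc
    · refine IsConnected.union ⟨_, (sq_inter ht).1, ?_⟩ hc
        (chain_conn L (List.ne_nil_of_mem hd) h.2)
      exact Set.mem_iUnion₂.2 ⟨d, hd, (sq_inter ht).2⟩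

/-- a finite union of unit squares is connected if the squares can be listed so that every square
but the last one meets a later one -/
theorem squares_connected (S : Finset (ℤ × ℤ)) (L : List (ℤ × ℤ)) (hL : L ≠ []) (hc : chain L)
    (h1 : ∀ c ∈ L, c ∈ S) (h2 : ∀ c ∈ S, c ∈ L) (T : Set (Eu 2))
    (hT : ∀ x : Eu 2, x ∈ T ↔
      ∃ c ∈ S, (c.1 : ℝ) ≤ x 0 ∧ x 0 ≤ c.1 + 1 ∧ (c.2 : ℝ) ≤ x 1 ∧ x 1 ≤ c.2 + 1) :
    IsConnected T := by
  have e : T = ⋃ c ∈ L, sq c := by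
    ext x
    rw [hT x, Set.mem_iUnion₂]
    constructor
    · rintro ⟨c, hc, h⟩
      exact ⟨c, h2 c hc, h⟩
    · rintro ⟨c, hc, h⟩
      exact ⟨c, h1 c hc, h⟩
  rw [e]
  exact chain_conn L hL hc

end AlefC
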