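import Pool.Agent.TilDich.Geo5

/-!
# A connected union of squares with exactly countably many tilings: definitions
-/

set_option autoImplicit false

namespace AlefC

open TilDich

/-- quarter turn of the grid -/
def rt (p : ℤ × ℤ) : ℤ × ℤ := (-p.2, p.1)

/-- the fourteen cells of the pattern -/
def F0 : List (ℤ × ℤ) :=
  [(-3, -5), (-2, -4), (-3, -3), (-2, -2), (0, -2), (-1, -1), (0, 0),
   (1, 1), (2, 2), (1, 3), (3, 3), (2, 4), (1, 5), (4, 4)]

/-- the four rotated images of the pattern -/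
def Fg (g : Fin 4) : List (ℤ × ℤ) := F0.map (rt^[g.val])

/-- placements: type of the image and position -/
abbrev Pl := Fin 4 × (ℤ × ℤ)

/-- exact covers of the grid by images of the pattern -/
def Tiling (P : Set Pl) : Prop := ∀ c : ℤ × ℤ, ∃! q : Pl, q ∈ P ∧ c - q.2 ∈ Fg q.1

/-- rotations and translations act on placements -/
def act (k : Fin 4) (z : ℤ × ℤ) (q : Pl) : Pl := (q.1 + k, rt^[k.val] q.2 + z)

/-- the lattice of the plus pentominoes -/
def Av (p : ℤ × ℤ) : Fin 2 → ℤ := ![2 * p.1 - p.2, p.1 + 2 * p.2]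

/-- cells of the plus pentomino -/
def plusF : Finset (Fin 2 → ℤ) := {![0, 0], ![1, 0], ![-1, 0], ![0, 1], ![0, -1]}

/-- the plus pentomino at the lattice point `p` -/
noncomputable def pls (p : ℤ × ℤ) : Set (Eu 2) := tile plusF (zz (Av p))

/-- the tile of a placement: union of fourteen plus pentominoes -/
noncomputable def TT (q : Pl) : Set (Eu 2) := ⋃ f ∈ Fg q.1, pls (q.2 + f)

/-- the tiling of the plane of an exact cover -/
noncomputable def realize (P : Set Pl) : Set (Set (Eu 2)) := TT '' P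

/-- monohedral tilings with prototile `T` -/
def Mono (T : Set (Eu 2)) (𝒯 : Set (Set (Eu 2))) : Prop :=
  (∀ A ∈ 𝒯, ∃ e : Eu 2 ≃ᵢ Eu 2, A = e '' T) ∧ ⋃₀ 𝒯 = Set.univ ∧
    𝒯.Pairwise fun A B => Disjoint (interior A) (interior B)

/-- the prototile -/
noncomputable def T0 : Set (Eu 2) := TT (0, (0, 0))

end AlefC
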