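import Pool.Agent.AlefC.Defs

/-!
# The lattice tiling by plus pentominoes
-/

set_option autoImplicit false

namespace AlefC

open TilDich

theorem Av_add (p q : ℤ × ℤ) : Av (p + q) = Av p + Av q := by
  funext i
  fin_cases i
  · simp [Av]
    ring
  · simp [Av]
    ring

theorem zz_Av_add (p q : ℤ × ℤ) : zz (Av (p + q)) = zz (Av p) + zz (Av q) := by
  rw [Av_add]
  ext i
  simp [zz]

theorem Av_inj {p q : ℤ × ℤ} (h : Av p = Av q) : p = q := by
  have h0 := congrFun h 0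
  have h1 := congrFun h 1
  simp only [Av, Matrix.cons_val_zero, Matrix.cons_val_one, Matrix.cons_val_fin_one] at h0 h1
  ext
  · omega
  · omega

theorem plusF_nonempty : plusF.Nonempty := ⟨![0, 0], by simp [plusF]⟩

theorem pls_inj {p q : ℤ × ℤ} (h : pls p = pls q) : p = q :=
  Av_inj (zz_inj (tile_inj plusF_nonempty h))

theorem mem_plusF (n : Fin 2 → ℤ) : n ∈ plusF ↔
    (n 0 = 0 ∧ n 1 = 0) ∨ (n 0 = 1 ∧ n 1 = 0) ∨ (n 0 = -1 ∧ n 1 = 0) ∨ (n 0 = 0 ∧ n 1 = 1) ∨
      (n 0 = 0 ∧ n 1 = -1) := by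
  have key : ∀ a b : ℤ, n = ![a, b] ↔ n 0 = a ∧ n 1 = b := by
    intro a b
    constructor
    · rintro rfl
      exact ⟨rfl, rfl⟩
    · rintro ⟨h0, h1⟩
      funext i
      fin_cases i
      · exact h0
      · exact h1
  simp only [plusF, Finset.mem_insert, Finset.mem_singleton, key]

/-- the lattice points give an exact cover by pluses -/
theorem lattice_ho : HO plusF (Set.range fun z : ℤ × ℤ => zz (Av z)) := by
  intro x
  have key : ∀ z : ℤ × ℤ, fl (x - zz (Av z)) ∈ plusF ↔ fl x - Av z ∈ plusF := by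
    intro z
    rw [fl_sub_zz]
  obtain ⟨n, hn⟩ : ∃ n, n = fl x := ⟨_, rfl⟩
  simp only [← hn] at key
  have hz : ∀ z : ℤ × ℤ, (n - Av z) 0 = n 0 - (2 * z.1 - z.2) ∧
      (n - Av z) 1 = n 1 - (z.1 + 2 * z.2) := fun z => ⟨rfl, rfl⟩
  have hex : ∃ z : ℤ × ℤ, n - Av z ∈ plusF := by
    have h5 : n 0 - 2 * n 1 = 5 * ((n 0 - 2 * n 1) / 5) + (n 0 - 2 * n 1) % 5 := by omega
    obtain ⟨k, hk⟩ : ∃ k, k = (n 0 - 2 * n 1) / 5 := ⟨_, rfl⟩
    have hr : (n 0 - 2 * n 1) % 5 = 0 ∨ (n 0 - 2 * n 1) % 5 = 1 ∨ (n 0 - 2 * n 1) % 5 = 2 ∨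
        (n 0 - 2 * n 1) % 5 = 3 ∨ (n 0 - 2 * n 1) % 5 = 4 := by omega
    rcases hr with h | h | h | h | h
    · refine ⟨(2 * k + n 1, -k), ?_⟩
      rw [mem_plusF]
      have := hz (2 * k + n 1, -k)
      simp only at this
      omega
    · refine ⟨(2 * k + n 1, -k), ?_⟩
      rw [mem_plusF]
      have := hz (2 * k + n 1, -k)
      simp only at this
      omega
    · refine ⟨(2 * k + n 1 + 1, -k), ?_⟩
      rw [mem_plusF]
      have := hz (2 * k + n 1 + 1, -k)
      simp only at this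
      omega
    · refine ⟨(2 * k + 2 + n 1 - 1, -k - 1), ?_⟩
      rw [mem_plusF]
      have := hz (2 * k + 2 + n 1 - 1, -k - 1)
      simp only at this
      omega
    · refine ⟨(2 * k + 2 + n 1, -k - 1), ?_⟩
      rw [mem_plusF]
      have := hz (2 * k + 2 + n 1, -k - 1)
      simp only at this
      omega
  obtain ⟨z, h1⟩ := hex
  refine ⟨zz (Av z), ⟨⟨z, rfl⟩, (key z).2 h1⟩, ?_⟩
  rintro _ ⟨⟨w, rfl⟩, hw⟩
  have h2 : n - Av w ∈ plusF := (key w).1 hw
  have hzw : w = z := by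
    rw [mem_plusF] at h1 h2
    have a1 := hz z
    have a2 := hz w
    ext
    · omega
    · omega
  rw [hzw]

theorem range_pls : (Set.range pls : Set (Set (Eu 2))) =
    tile plusF '' (Set.range fun z : ℤ × ℤ => zz (Av z)) := by
  rw [← Set.range_comp]
  rfl

theorem lattice_tr : IsTr plusF (Set.range pls) := by
  rw [range_pls]
  exact tr_of_ho lattice_ho

theorem lattice_mono : IsMono plusF (Set.range pls) := lattice_tr.isMono

/-- a plus does not meet the interior of another plus -/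
theorem int_disj {p c : ℤ × ℤ} (h : p ≠ c) : Disjoint (interior (pls p)) (pls c) := by
  rw [Set.disjoint_left]
  intro x hx hc
  have h1 := mem_frontier_of_mem (Set.range pls) lattice_mono ⟨p, rfl⟩ ⟨c, rfl⟩
    (fun h2 => h (pls_inj h2)) (interior_subset hx) hc
  exact h1.2 hx

theorem pls_int_nonempty (c : ℤ × ℤ) : (interior (pls c)).Nonempty := by
  refine ⟨zz (Av c) + WithLp.toLp 2 (fun _ => (1 / 2 : ℝ)), ?_⟩
  refine mem_interior_tile (f := ![0, 0]) (by simp [plusF]) fun i => ?_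
  have h1 : (zz (Av c) + WithLp.toLp 2 (fun _ => (1 / 2 : ℝ)) : Eu 2) i - zz (Av c) i = 1 / 2 := by
    simp
  rw [h1]
  fin_cases i
  · norm_num
  · norm_num

/-- the cells of a placement -/
def cells (q : Pl) : Set (ℤ × ℤ) := {c | c - q.2 ∈ Fg q.1}

theorem mem_cells_add {q : Pl} {f : ℤ × ℤ} : q.2 + f ∈ cells q ↔ f ∈ Fg q.1 := by
  show q.2 + f - q.2 ∈ Fg q.1 ↔ _
  rw [add_sub_cancel_left]

theorem TT_eq (q : Pl) : TT q = ⋃ c ∈ cells q, pls c := by
  ext x
  simp only [TT, Set.mem_iUnion]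
  constructor
  · rintro ⟨f, hf, hx⟩
    exact ⟨q.2 + f, mem_cells_add.2 hf, hx⟩
  · rintro ⟨c, hc, hx⟩
    refine ⟨c - q.2, hc, ?_⟩
    rwa [add_sub_cancel]

theorem cells_finite (q : Pl) : (cells q).Finite := by
  have h : cells q ⊆ (fun f => q.2 + f) '' {f | f ∈ Fg q.1} := by
    intro c hc
    exact ⟨c - q.2, hc, by simp⟩
  refine Set.Finite.subset (Set.Finite.image _ ?_) h
  exact List.finite_toSet _

theorem mem_cells_iff (q : Pl) (c : ℤ × ℤ) : c ∈ cells q ↔ pls c ⊆ TT q := by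
  rw [TT_eq]
  constructor
  · intro h
    exact Set.subset_biUnion_of_mem h
  · intro h
    by_contra hc
    obtain ⟨x, hx⟩ := pls_int_nonempty c
    have h1 := h (interior_subset hx)
    simp only [Set.mem_iUnion] at h1
    obtain ⟨c', hc', hx'⟩ := h1
    have hne : c ≠ c' := by
      rintro rfl
      exact hc hc'
    exact Set.disjoint_left.1 (int_disj hne) hx hx'

theorem Fg_rigid : ∀ g g' : Fin 4, ∀ z ∈ Fg g, (∀ f ∈ Fg g', f + z ∈ Fg g) →
    g = g' ∧ z = (0, 0) := by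
  decide +kernel

theorem zero_mem_Fg : ∀ g : Fin 4, ((0, 0) : ℤ × ℤ) ∈ Fg g := by
  decide +kernel

theorem TT_inj {q q' : Pl} (h : TT q = TT q') : q = q' := by
  have hc : cells q = cells q' := by
    ext c
    rw [mem_cells_iff, mem_cells_iff, h]
  obtain ⟨g, v⟩ := q
  obtain ⟨g', v'⟩ := q'
  have h1 : ∀ f ∈ Fg g', f + (v' - v) ∈ Fg g := by
    intro f hf
    have h2 : v' + f ∈ cells (g', v') := mem_cells_add.2 hf
    rw [← hc] at h2
    have h3 : v' + f - v ∈ Fg g := h2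
    have e : f + (v' - v) = v' + f - v := by abel
    rw [e]
    exact h3
  have h2 : v' - v ∈ Fg g := by
    have h3 := h1 (0, 0) (zero_mem_Fg g')
    have e : ((0, 0) : ℤ × ℤ) + (v' - v) = v' - v := zero_add _
    rwa [e] at h3
  obtain ⟨h3, h4⟩ := Fg_rigid g g' _ h2 h1
  have h5 : v' = v := sub_eq_zero.1 h4
  rw [h3, h5]

theorem TT_injective : Function.Injective TT := fun _ _ h => TT_inj h

end AlefC
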